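import Pool.Agent.Helper85.GL.Local

/-!
Project GL (helper85), MP_7bfbd3_co: the minimum degree of a graphon of least crossing density.

A set `Z` of vertices of small degree is moved to one point to the left of the drawing and joined to the
leftmost part `L` of the other vertices: an edge crossing one of the new edges has an endpoint in `L`.
-/

set_option linter.unusedSectionVars false

namespace Pool.Agent.Helper85.GL

open MeasureTheory Set Pool.Agent.Helper8.GC

variable {Ω : Type*} [MeasurableSpace Ω]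

/-- The pairs inside a set. -/
noncomputable def ins (W : Ω → Ω → ℝ) (E : Set (Ω × Ω)) (e : Ω × Ω) : ℝ :=
  E.indicator (fun e : Ω × Ω => W e.1 e.2) e

/-- The edges between two sets. -/
noncomputable def bip (X Y : Set Ω) (e : Ω × Ω) : ℝ :=
  (X ×ˢ Y).indicator (fun _ => (1 : ℝ)) e + (X ×ˢ Y).indicator (fun _ => (1 : ℝ)) e.swap

theorem bip_of_mem {X Y : Set Ω} (hXY : Disjoint X Y) {e : Ω × Ω}
    (h : e ∈ X ×ˢ Y ∨ e.swap ∈ X ×ˢ Y) : bip X Y e = 1 := by
  unfold bip
  rcases h with h | h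
  · have h' : e.swap ∉ X ×ˢ Y := fun h' => Set.disjoint_left.1 hXY h.1 h'.2
    rw [indicator_of_mem h, indicator_of_notMem h', add_zero]
  · have h' : e ∉ X ×ˢ Y := fun h' => Set.disjoint_left.1 hXY h.1 h'.2
    rw [indicator_of_mem h, indicator_of_notMem h', zero_add]

theorem bip_of_notMem {X Y : Set Ω} {e : Ω × Ω}
    (h : ¬ (e ∈ X ×ˢ Y ∨ e.swap ∈ X ×ˢ Y)) : bip X Y e = 0 := by
  unfold bip
  rw [indicator_of_notMem (fun h' => h (Or.inl h')), indicator_of_notMem (fun h' => h (Or.inr h')),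
    add_zero]

theorem bip_nonneg (X Y : Set Ω) (e : Ω × Ω) : 0 ≤ bip X Y e :=
  add_nonneg (indicator_nonneg (fun _ _ => zero_le_one) _)
    (indicator_nonneg (fun _ _ => zero_le_one) _)

theorem bdd_bip {X Y : Set Ω} (hX : MeasurableSet X) (hY : MeasurableSet Y) : Bdd (bip X Y) :=
  (bdd_indicator (hX.prod hY)).add (bdd_indicator (hX.prod hY)).swap

theorem bip_swap (X Y : Set Ω) (e : Ω × Ω) : bip X Y e.swap = bip X Y e := by
  unfold bip
  rw [Prod.swap_swap, add_comm]

theorem integral_bip {μ : Measure Ω} [IsProbabilityMeasure μ] {X Y : Set Ω}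
    (hX : MeasurableSet X) (hY : MeasurableSet Y) :
    ∫ e, bip X Y e ∂(μ.prod μ) = 2 * (μ.real X * μ.real Y) := by
  unfold bip
  have b1 := bdd_indicator (hX.prod hY)
  have h1 : ∫ e : Ω × Ω, ((X ×ˢ Y).indicator (fun _ => (1 : ℝ)) e +
      (X ×ˢ Y).indicator (fun _ => (1 : ℝ)) e.swap) ∂(μ.prod μ) =
      ∫ e : Ω × Ω, (X ×ˢ Y).indicator (fun _ => (1 : ℝ)) e ∂(μ.prod μ) +
      ∫ e : Ω × Ω, (X ×ˢ Y).indicator (fun _ => (1 : ℝ)) e.swap ∂(μ.prod μ) :=
    integral_add (Bdd.integrable b1) (Bdd.integrable b1.swap)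
  have h2 : ∫ e : Ω × Ω, (X ×ˢ Y).indicator (fun _ => (1 : ℝ)) e.swap ∂(μ.prod μ) =
      ∫ e : Ω × Ω, (X ×ˢ Y).indicator (fun _ => (1 : ℝ)) e ∂(μ.prod μ) :=
    integral_prod_swap (μ := μ) (ν := μ) (fun e => (X ×ˢ Y).indicator (fun _ => (1 : ℝ)) e)
  have h3 : ∫ e : Ω × Ω, (X ×ˢ Y).indicator (fun _ => (1 : ℝ)) e ∂(μ.prod μ) =
      μ.real X * μ.real Y := by
    rw [integral_indicator (hX.prod hY)]
    simp [measureReal_prod_prod]
  rw [h1, h2, h3]
  ring

/-- A new graphon: the edges of `W` in a symmetric set of pairs and all edges between `X` and `Y`. -/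
noncomputable def glue (W : Ω → Ω → ℝ) (E : Set (Ω × Ω)) (X Y : Set Ω) (x y : Ω) : ℝ :=
  ins W E (x, y) + bip X Y (x, y)

theorem isGraphon_glue {W : Ω → Ω → ℝ} (hW : IsGraphon W) {E : Set (Ω × Ω)}
    (hE : MeasurableSet E) (hEs : ∀ x y, (x, y) ∈ E ↔ (y, x) ∈ E) {X Y : Set Ω}
    (hX : MeasurableSet X) (hY : MeasurableSet Y) (hXY : Disjoint X Y)
    (hdis : ∀ e ∈ E, e ∉ X ×ˢ Y) : IsGraphon (glue W E X Y) where
  measurable := (hW.measurable.indicator hE).add (bdd_bip hX hY).1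
  symm x y := by
    unfold glue
    have h1 : ins W E (x, y) = ins W E (y, x) := by
      unfold ins
      by_cases h : (x, y) ∈ E
      · rw [indicator_of_mem h, indicator_of_mem ((hEs x y).1 h)]
        exact hW.symm x y
      · rw [indicator_of_notMem h, indicator_of_notMem fun h' => h ((hEs x y).2 h')]
    have h2 : bip X Y (x, y) = bip X Y (y, x) := bip_swap X Y (y, x)
    rw [h1, h2]
  nonneg x y := add_nonneg (indicator_nonneg (fun e _ => hW.nonneg e.1 e.2) _)
    (bip_nonneg X Y _)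
  le_one x y := by
    unfold glue
    by_cases h : (x, y) ∈ E
    · have h1 : bip X Y (x, y) = 0 := by
        refine bip_of_notMem ?_
        rintro (h' | h')
        · exact hdis _ h h'
        · exact hdis _ ((hEs x y).1 h) h'
      rw [h1, add_zero]
      unfold ins
      rw [indicator_of_mem h]
      exact hW.le_one x y
    · have h1 : ins W E (x, y) = 0 := indicator_of_notMem h _
      rw [h1, zero_add]
      by_cases h2 : (x, y) ∈ X ×ˢ Y ∨ (x, y).swap ∈ X ×ˢ Y
      · rw [bip_of_mem hXY h2]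
      · rw [bip_of_notMem h2]
        exact zero_le_one

theorem mass_glue {μ : Measure Ω} [IsProbabilityMeasure μ] {W : Ω → Ω → ℝ} (hW : IsGraphon W)
    {E : Set (Ω × Ω)} (hE : MeasurableSet E) {X Y : Set Ω}
    (hX : MeasurableSet X) (hY : MeasurableSet Y) :
    mass μ (glue W E X Y) = wm μ W E + 2 * (μ.real X * μ.real Y) := by
  rw [← integral_bip hX hY]
  unfold mass wm
  exact integral_add (integrable_wm hW hE) (Bdd.integrable (bdd_bip hX hY))

/-- The crossing density of the new graphon in a new drawing. -/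
theorem cdf_glue {μ : Measure Ω} [IsProbabilityMeasure μ] {W : Ω → Ω → ℝ} (hW : IsGraphon W)
    {E : Set (Ω × Ω)} (hE : MeasurableSet E) {X Y : Set Ω}
    (hX : MeasurableSet X) (hY : MeasurableSet Y)
    {f f' : Ω → ℝ × ℝ} (hf : Measurable f) (hf' : Measurable f')
    (h0 : ∀ e ∈ E, ∀ e' ∈ E, (e, e') ∈ crossing f' → (e, e') ∈ crossing f)
    {H : Set (Ω × Ω)} (hH : MeasurableSet H)
    (h1 : ∀ e ∈ X ×ˢ Y, ∀ e' ∈ E, (e, e') ∈ crossing f' → e' ∈ H) :
    cdf μ (glue W E X Y) f' ≤ cdf μ W f +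
      (4 * (μ.real X * μ.real Y) * wm μ W H +
        4 * (μ.real X * μ.real Y) ^ 2) / 8 := by
  have bI : Bdd (ins W E) := bdd_ind hW hE
  have bB := bdd_bip (Ω := Ω) hX hY
  have bH := bdd_ind hW hH
  have iH : ∫ e : Ω × Ω, H.indicator (fun e : Ω × Ω => W e.1 e.2) e ∂(μ.prod μ) = wm μ W H := rfl
  have e1 : cdf μ (glue W E X Y) f' =
      (1 / 8) * bil μ f' (fun e => ins W E e + bip X Y e) (fun e => ins W E e + bip X Y e) := rfl
  have hinsle : ∀ e, ins W E e ≤ W e.1 e.2 := fun e =>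
    indicator_le_self' (f := fun e : Ω × Ω => W e.1 e.2) (fun _ _ => hW.nonneg _ _) e
  have hins0 : ∀ e, 0 ≤ ins W E e := fun e =>
    indicator_nonneg (fun e _ => hW.nonneg e.1 e.2) e
  have hcross : ∀ e e', bip X Y e ≠ 0 → e' ∈ E → (e, e') ∈ crossing f' → e' ∈ H := by
    intro e e' hb he' hc
    by_cases h2 : e ∈ X ×ˢ Y ∨ e.swap ∈ X ×ˢ Y
    · rcases h2 with h2 | h2
      · exact h1 e h2 e' he' hc
      · exact h1 e.swap h2 e' he' ((crossing_swap_left e e').2 hc)
    · exact absurd (bip_of_notMem h2) hb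
  have k0 : bil μ f' (ins W E) (ins W E) ≤ bil μ f (fun e => W e.1 e.2) (fun e => W e.1 e.2) := by
    unfold bil
    refine integral_mono (integrable_bil hf' bI bI) (integrable_bil hf hW.bdd hW.bdd) fun q => ?_
    change ins W E q.1 * ins W E q.2 * (crossing f').indicator (fun _ => (1 : ℝ)) q ≤
      W q.1.1 q.1.2 * W q.2.1 q.2.2 * (crossing f).indicator (fun _ => (1 : ℝ)) q
    have hr : 0 ≤ W q.1.1 q.1.2 * W q.2.1 q.2.2 *
        (crossing f).indicator (fun _ => (1 : ℝ)) q :=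
      mul_nonneg (mul_nonneg (hW.nonneg _ _) (hW.nonneg _ _))
        (indicator_nonneg (fun _ _ => zero_le_one) q)
    by_cases c1 : q.1 ∈ E
    · by_cases c2 : q.2 ∈ E
      · by_cases c3 : q ∈ crossing f'
        · have c4 : q ∈ crossing f := h0 q.1 c1 q.2 c2 c3
          unfold ins
          rw [indicator_of_mem c1, indicator_of_mem c2, indicator_of_mem c3, indicator_of_mem c4]
        · rw [indicator_of_notMem c3, mul_zero]
          exact hr
      · have : ins W E q.2 = 0 := indicator_of_notMem c2 _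
        rw [this, mul_zero, zero_mul]
        exact hr
    · have : ins W E q.1 = 0 := indicator_of_notMem c1 _
      rw [this, zero_mul, zero_mul]
      exact hr
  have k1 : bil μ f' (bip X Y) (ins W E) ≤
      2 * (μ.real X * μ.real Y) * wm μ W H := by
    rw [← integral_bip (μ := μ) hX hY, ← iH]
    refine bil_le_prod hf' bB bI bB bH fun q => ?_
    have hr : 0 ≤ bip X Y q.1 * H.indicator (fun e : Ω × Ω => W e.1 e.2) q.2 :=
      mul_nonneg (bip_nonneg X Y _) (indicator_nonneg (fun _ _ => hW.nonneg _ _) _)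
    by_cases c3 : q ∈ crossing f'
    · rw [indicator_of_mem c3, mul_one]
      by_cases c2 : q.2 ∈ E
      · by_cases c1 : bip X Y q.1 = 0
        · rw [c1, zero_mul, zero_mul]
        · have := hcross q.1 q.2 c1 c2 c3
          rw [indicator_of_mem this]
          exact mul_le_mul_of_nonneg_left (hinsle _) (bip_nonneg X Y _)
      · have : ins W E q.2 = 0 := indicator_of_notMem c2 _
        rw [this, mul_zero]
        exact hr
    · rw [indicator_of_notMem c3, mul_zero]
      exact hr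
  have k2 : bil μ f' (ins W E) (bip X Y) ≤
      2 * (μ.real X * μ.real Y) * wm μ W H := by
    rw [mul_comm, ← integral_bip (μ := μ) hX hY, ← iH]
    refine bil_le_prod hf' bI bB bH bB fun q => ?_
    have hr : 0 ≤ H.indicator (fun e : Ω × Ω => W e.1 e.2) q.1 * bip X Y q.2 :=
      mul_nonneg (indicator_nonneg (fun _ _ => hW.nonneg _ _) _) (bip_nonneg X Y _)
    by_cases c3 : q ∈ crossing f'
    · rw [indicator_of_mem c3, mul_one]
      by_cases c2 : q.1 ∈ E
      · by_cases c1 : bip X Y q.2 = 0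
        · rw [c1, mul_zero, mul_zero]
        · have := hcross q.2 q.1 c1 c2 (Cross.symm c3)
          rw [indicator_of_mem this]
          exact mul_le_mul_of_nonneg_right (hinsle _) (bip_nonneg X Y _)
      · have : ins W E q.1 = 0 := indicator_of_notMem c2 _
        rw [this, zero_mul]
        exact hr
    · rw [indicator_of_notMem c3, mul_zero]
      exact hr
  have k3 : bil μ f' (bip X Y) (bip X Y) ≤
      (2 * (μ.real X * μ.real Y)) * (2 * (μ.real X * μ.real Y)) := by
    rw [← integral_bip (μ := μ) hX hY]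
    refine bil_le_prod hf' bB bB bB bB fun q => ?_
    refine mul_le_of_le_one_right (mul_nonneg (bip_nonneg X Y _) (bip_nonneg X Y _)) ?_
    by_cases h : q ∈ crossing f' <;> simp [h]
  rw [e1, bil_add_left hf' bI bB (bI.add bB), bil_add_right hf' bI bI bB,
    bil_add_right hf' bB bI bB, cdf_eq_bil]
  have e2 : (4 * (μ.real X * μ.real Y) * wm μ W H +
      4 * (μ.real X * μ.real Y) ^ 2) / 8 =
      (1 / 8) * (2 * (μ.real X * μ.real Y) * wm μ W H +
        2 * (μ.real X * μ.real Y) * wm μ W H +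
        (2 * (μ.real X * μ.real Y)) * (2 * (μ.real X * μ.real Y))) := by ring
  rw [e2]
  linarith

/-- Crossing segments and a vertical line. -/
theorem cross_lt {x y z w : ℝ × ℝ} {t : ℝ} (hx : x.1 < t) (hy : y.1 < t)
    (h : Cross x y z w) : z.1 < t ∨ w.1 < t := by
  by_contra hcon
  push Not at hcon
  obtain ⟨hz, hw⟩ := hcon
  obtain ⟨α, β, γ, δ, hα, hβ, hγ, hδ, h1, h2, h3, -⟩ := cross_elim h
  have e1 : α * x.1 + β * y.1 < t := by
    rcases eq_or_lt_of_le hα with h0 | h0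
    · have hb : β = 1 := by linarith
      rw [← h0, hb]
      linarith
    · have l1 : α * x.1 < α * t := mul_lt_mul_of_pos_left hx h0
      have l2 : β * y.1 ≤ β * t := mul_le_mul_of_nonneg_left hy.le hβ
      have l3 : α * t + β * t = t := by rw [← add_mul, h1, one_mul]
      linarith
  have e2 : t ≤ γ * z.1 + δ * w.1 := by
    have l1 : γ * t ≤ γ * z.1 := mul_le_mul_of_nonneg_left hz hγ
    have l2 : δ * t ≤ δ * w.1 := mul_le_mul_of_nonneg_left hw hδ
    have l3 : γ * t + δ * t = t := by rw [← add_mul, h2, one_mul]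
    linarith
  linarith

theorem cross_gt {x y z w : ℝ × ℝ} {t : ℝ} (hx : t < x.1) (hy : t < y.1)
    (h : Cross x y z w) : t < z.1 ∨ t < w.1 := by
  by_contra hcon
  push Not at hcon
  obtain ⟨hz, hw⟩ := hcon
  obtain ⟨α, β, γ, δ, hα, hβ, hγ, hδ, h1, h2, h3, -⟩ := cross_elim h
  have e1 : t < α * x.1 + β * y.1 := by
    rcases eq_or_lt_of_le hα with h0 | h0
    · have hb : β = 1 := by linarith
      rw [← h0, hb]
      linarith
    · have l1 : α * t < α * x.1 := mul_lt_mul_of_pos_left hx h0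
      have l2 : β * t ≤ β * y.1 := mul_le_mul_of_nonneg_left hy.le hβ
      have l3 : α * t + β * t = t := by rw [← add_mul, h1, one_mul]
      linarith
  have e2 : γ * z.1 + δ * w.1 ≤ t := by
    have l1 : γ * z.1 ≤ γ * t := mul_le_mul_of_nonneg_left hz hγ
    have l2 : δ * w.1 ≤ δ * t := mul_le_mul_of_nonneg_left hw hδ
    have l3 : γ * t + δ * t = t := by rw [← add_mul, h2, one_mul]
    linarith
  linarith

theorem cross_translate {x y z w v : ℝ × ℝ} (h : Cross (x + v) (y + v) (z + v) (w + v)) :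
    Cross x y z w := by
  obtain ⟨α, β, γ, δ, hα, hβ, hγ, hδ, h1, h2, h3, h4⟩ := cross_elim h
  simp only [Prod.fst_add, Prod.snd_add] at h3 h4
  refine cross_intro hα hβ hγ hδ (by rw [h1, h2]) (by rw [h1]; exact one_pos) ?_ ?_
  · have l1 : α * (x.1 + v.1) + β * (y.1 + v.1) = α * x.1 + β * y.1 + (α + β) * v.1 := by ring
    have l2 : γ * (z.1 + v.1) + δ * (w.1 + v.1) = γ * z.1 + δ * w.1 + (γ + δ) * v.1 := by ring
    rw [l1, l2, h1, h2] at h3
    linarith
  · have l1 : α * (x.2 + v.2) + β * (y.2 + v.2) = α * x.2 + β * y.2 + (α + β) * v.2 := by ring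
    have l2 : γ * (z.2 + v.2) + δ * (w.2 + v.2) = γ * z.2 + δ * w.2 + (γ + δ) * v.2 := by ring
    rw [l1, l2, h1, h2] at h4
    linarith

theorem mass_le_one {μ : Measure Ω} [IsProbabilityMeasure μ] {W : Ω → Ω → ℝ}
    (hW : IsGraphon W) : mass μ W ≤ 1 := by
  unfold mass
  have h1 : ∫ e : Ω × Ω, W e.1 e.2 ∂(μ.prod μ) ≤ ∫ _ : Ω × Ω, (1 : ℝ) ∂(μ.prod μ) :=
    integral_mono (Bdd.integrable hW.bdd) (integrable_const _) fun e => hW.le_one _ _
  simpa using h1

theorem cdf_le_sq {μ : Measure Ω} [IsProbabilityMeasure μ] {W : Ω → Ω → ℝ}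
    (hW : IsGraphon W) {f : Ω → ℝ × ℝ} (hf : Measurable f) :
    cdf μ W f ≤ mass μ W ^ 2 / 8 := by
  have h1 : bil μ f (fun e => W e.1 e.2) (fun e => W e.1 e.2) ≤ mass μ W * mass μ W := by
    refine bil_le_prod hf hW.bdd hW.bdd hW.bdd hW.bdd fun q => ?_
    refine mul_le_of_le_one_right (mul_nonneg (hW.nonneg _ _) (hW.nonneg _ _)) ?_
    by_cases h : q ∈ crossing f <;> simp [h]
  rw [cdf_eq_bil]
  nlinarith

theorem cd_le_sq {μ : Measure Ω} [IsProbabilityMeasure μ] {W : Ω → Ω → ℝ}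
    (hW : IsGraphon W) : cd μ W ≤ mass μ W ^ 2 / 8 := by
  have hd : IsDrawing (fun _ : Ω => (0 : ℝ × ℝ)) := ⟨measurable_const, by
    refine Bornology.IsBounded.subset (Bornology.isBounded_singleton (x := (0 : ℝ × ℝ))) ?_
    rintro _ ⟨x, rfl⟩
    exact mem_singleton _⟩
  exact (cd_le hW hd).trans (cdf_le_sq hW measurable_const)

/-- A subset of prescribed measure. -/
theorem exists_subset {μ : Measure Ω} [IsProbabilityMeasure μ]
    (hc : ∃ c : Ω → ℝ × ℝ, IsDrawing c ∧ Generic μ c) {Z : Set Ω} (hZ : MeasurableSet Z)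
    {δ : ℝ} (h0 : 0 < δ) (h1 : δ < μ.real Z) :
    ∃ Z' : Set Ω, MeasurableSet Z' ∧ Z' ⊆ Z ∧ μ.real Z' = δ := by
  obtain ⟨c, hc1, hc2⟩ := hc
  have hφ : Measurable fun ω => (c ω).1 := measurable_fst.comp hc1.measurable
  have hno : ∀ t, μ {ω | (c ω).1 = t} = 0 := by
    intro t
    have := hc2.line_null hc1.measurable t (α := 1) (β := 0) (Or.inl one_ne_zero)
    simpa using this
  obtain ⟨t, ht⟩ := exists_split hφ hno hZ h0 h1
  exact ⟨_, hZ.inter (measurableSet_lt hφ measurable_const), inter_subset_left, ht⟩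

/-- The mass of `W` on `X × Ω`. -/
theorem wm_prod_univ {μ : Measure Ω} [IsProbabilityMeasure μ] {W : Ω → Ω → ℝ}
    (hW : IsGraphon W) {X : Set Ω} (hX : MeasurableSet X) :
    wm μ W (X ×ˢ univ) = ∫ x in X, (∫ y, W x y ∂μ) ∂μ := by
  unfold wm
  rw [integral_prod _ (integrable_wm hW (hX.prod MeasurableSet.univ)), ← integral_indicator hX]
  congr 1
  ext x
  by_cases h : x ∈ X
  · rw [indicator_of_mem h]
    congr 1
    ext y
    rw [indicator_of_mem (show (x, y) ∈ X ×ˢ univ from ⟨h, mem_univ y⟩)]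
  · rw [indicator_of_notMem h]
    have : ∀ y, (X ×ˢ univ).indicator (fun e : Ω × Ω => W e.1 e.2) (x, y) = 0 := fun y =>
      indicator_of_notMem (fun h' => h h'.1) _
    simp only [this, integral_zero]

theorem wm_swap {μ : Measure Ω} [IsProbabilityMeasure μ] {W : Ω → Ω → ℝ}
    (hW : IsGraphon W) (X Y : Set Ω) : wm μ W (X ×ˢ Y) = wm μ W (Y ×ˢ X) := by
  unfold wm
  rw [← integral_prod_swap (μ := μ) (ν := μ)
    (fun e => (Y ×ˢ X).indicator (fun e : Ω × Ω => W e.1 e.2) e)]
  congr 1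
  ext e
  by_cases h : e ∈ X ×ˢ Y
  · rw [indicator_of_mem h, indicator_of_mem (show e.swap ∈ Y ×ˢ X from ⟨h.2, h.1⟩)]
    exact hW.symm _ _
  · rw [indicator_of_notMem h, indicator_of_notMem fun h' => h ⟨h'.2, h'.1⟩]

theorem measurable_deg {μ : Measure Ω} [IsProbabilityMeasure μ] {W : Ω → Ω → ℝ}
    (hW : IsGraphon W) : Measurable fun x => ∫ y, W x y ∂μ := by
  have h1 : StronglyMeasurable (Function.uncurry W) := hW.measurable.stronglyMeasurable
  exact h1.integral_prod_right.measurable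

theorem integrable_deg {μ : Measure Ω} [IsProbabilityMeasure μ] {W : Ω → Ω → ℝ}
    (hW : IsGraphon W) : Integrable (fun x => ∫ y, W x y ∂μ) μ := by
  refine Integrable.of_bound (measurable_deg hW).aestronglyMeasurable 1
    (Filter.Eventually.of_forall fun x => ?_)
  refine (norm_integral_le_of_norm_le_const (C := 1) (Filter.Eventually.of_forall
    fun y => ?_)).trans (by simp)
  rw [Real.norm_eq_abs, abs_of_nonneg (hW.nonneg _ _)]
  exact hW.le_one _ _

theorem mass_eq_deg {μ : Measure Ω} [IsProbabilityMeasure μ] {W : Ω → Ω → ℝ}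
    (hW : IsGraphon W) : mass μ W = ∫ x, (∫ y, W x y ∂μ) ∂μ := by
  unfold mass
  rw [integral_prod _ (Bdd.integrable hW.bdd)]

/-- The edges with an endpoint in a set. -/
theorem wm_cross_le {μ : Measure Ω} [IsProbabilityMeasure μ] {W : Ω → Ω → ℝ}
    (hW : IsGraphon W) {Δ : ℝ} (hΔ : ∀ᵐ x ∂μ, ∫ y, W x y ∂μ ≤ Δ) {C : Set Ω}
    (hC : MeasurableSet C) : wm μ W ((C ×ˢ univ) ∪ (univ ×ˢ C)) ≤ 2 * (Δ * μ.real C) := by
  have i1 := integrable_wm (μ := μ) hW (hC.prod MeasurableSet.univ)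
  have i2 := integrable_wm (μ := μ) hW (MeasurableSet.univ.prod hC)
  have h1 : wm μ W ((C ×ˢ univ) ∪ (univ ×ˢ C)) ≤
      wm μ W (C ×ˢ univ) + wm μ W (univ ×ˢ C) := by
    unfold wm
    rw [← integral_add i1 i2]
    refine integral_mono (integrable_wm hW ((hC.prod MeasurableSet.univ).union
      (MeasurableSet.univ.prod hC))) (i1.add i2) fun e => ?_
    change ((C ×ˢ univ) ∪ (univ ×ˢ C)).indicator (fun e : Ω × Ω => W e.1 e.2) e ≤
      (C ×ˢ univ).indicator (fun e : Ω × Ω => W e.1 e.2) e +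
      (univ ×ˢ C).indicator (fun e : Ω × Ω => W e.1 e.2) e
    have n1 : 0 ≤ (C ×ˢ univ).indicator (fun e : Ω × Ω => W e.1 e.2) e :=
      indicator_nonneg (fun _ _ => hW.nonneg _ _) e
    have n2 : 0 ≤ (univ ×ˢ C).indicator (fun e : Ω × Ω => W e.1 e.2) e :=
      indicator_nonneg (fun _ _ => hW.nonneg _ _) e
    by_cases h : e ∈ (C ×ˢ univ) ∪ (univ ×ˢ C)
    · rw [indicator_of_mem h]
      rcases h with h | h
      · rw [indicator_of_mem h]
        linarith
      · rw [indicator_of_mem h]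
        linarith
    · rw [indicator_of_notMem h]
      linarith
  have h2 : wm μ W (C ×ˢ univ) ≤ Δ * μ.real C := by
    rw [wm_prod_univ hW hC]
    have h3 : ∫ x in C, (∫ y, W x y ∂μ) ∂μ ≤ ∫ _ in C, Δ ∂μ :=
      integral_mono_ae (integrable_deg hW).integrableOn (integrable_const Δ).integrableOn
        (ae_restrict_of_ae hΔ)
    refine h3.trans ?_
    rw [setIntegral_const, smul_eq_mul, mul_comm]
  rw [wm_swap hW univ C] at h1
  linarith

theorem deg_le_one {μ : Measure Ω} [IsProbabilityMeasure μ] {W : Ω → Ω → ℝ}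
    (hW : IsGraphon W) (x : Ω) : ∫ y, W x y ∂μ ≤ 1 := by
  have hint : Integrable (fun y => W x y) μ := by
    refine Integrable.of_bound (hW.measurable.comp measurable_prodMk_left).aestronglyMeasurable 1
      (Filter.Eventually.of_forall fun y => ?_)
    rw [Real.norm_eq_abs, abs_of_nonneg (hW.nonneg _ _)]
    exact hW.le_one _ _
  calc ∫ y, W x y ∂μ ≤ ∫ _, (1 : ℝ) ∂μ :=
        integral_mono hint (integrable_const _) fun y => hW.le_one x y
    _ = 1 := by simp

theorem mass_le_deg {μ : Measure Ω} [IsProbabilityMeasure μ] {W : Ω → Ω → ℝ}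
    (hW : IsGraphon W) {Δ : ℝ} (hΔ : ∀ᵐ x ∂μ, ∫ y, W x y ∂μ ≤ Δ) : mass μ W ≤ Δ := by
  rw [mass_eq_deg hW]
  calc ∫ x, (∫ y, W x y ∂μ) ∂μ ≤ ∫ _, Δ ∂μ :=
        integral_mono_ae (integrable_deg hW) (integrable_const _) hΔ
    _ = Δ := by simp

end Pool.Agent.Helper85.GL
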