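import Mathlib

/-!
Project GL (helper85), MP_7bfbd3_co: weak limits of sets.
-/

set_option linter.unusedSectionVars false

namespace Pool.Agent.Helper85.GL

open MeasureTheory Set Filter Topology

variable {Ω : Type*} [MeasurableSpace Ω]

private theorem bounded_memLp {μ : Measure Ω} [IsProbabilityMeasure μ] {h : Ω → ℝ}
    (hm : Measurable h) {C : ℝ} (hC : ∀ x, |h x| ≤ C) : MemLp h 2 μ :=
  MemLp.of_bound hm.aestronglyMeasurable C
    (Eventually.of_forall fun x => by rw [Real.norm_eq_abs]; exact hC x)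

/-- A sequence of sets has a weakly convergent subsequence. -/
theorem weak_limit {μ : Measure Ω} [IsProbabilityMeasure μ]
    [TopologicalSpace.SeparableSpace (Lp ℝ 2 μ)] {T : ℕ → Set Ω}
    (hT : ∀ n, MeasurableSet (T n)) :
    ∃ (G : Ω → ℝ) (φ : ℕ → ℕ), Measurable G ∧ Integrable G μ ∧ StrictMono φ ∧
      ∀ h : Ω → ℝ, Measurable h → (∃ C, ∀ x, |h x| ≤ C) →
        Tendsto (fun n => ∫ x in T (φ n), h x ∂μ) atTop (𝓝 (∫ x, G x * h x ∂μ)) := by
  set u : ℕ → Lp ℝ 2 μ := fun n => indicatorConstLp 2 (hT n) (measure_ne_top μ _) (1 : ℝ)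
    with hu
  set Λ : ℕ → WeakDual ℝ (Lp ℝ 2 μ) := fun n =>
    WeakDual.toStrongDual.symm (InnerProductSpace.toDual ℝ (Lp ℝ 2 μ) (u n)) with hΛ
  have hball : ∀ n, Λ n ∈ (WeakDual.toStrongDual (𝕜 := ℝ) (E := Lp ℝ 2 μ)) ⁻¹'
      Metric.closedBall (0 : StrongDual ℝ (Lp ℝ 2 μ)) 1 := by
    intro n
    rw [mem_preimage, Metric.mem_closedBall, dist_zero_right]
    simp only [hΛ, LinearEquiv.apply_symm_apply, LinearIsometryEquiv.norm_map]
    rw [hu, norm_indicatorConstLp (by norm_num) (by norm_num), norm_one, one_mul]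
    exact Real.rpow_le_one measureReal_nonneg measureReal_le_one (by norm_num)
  obtain ⟨a, -, φ, hφ, hlim⟩ :=
    (WeakDual.isSeqCompact_closedBall ℝ (Lp ℝ 2 μ) 0 1) hball
  set g : Lp ℝ 2 μ := (InnerProductSpace.toDual ℝ (Lp ℝ 2 μ)).symm
    (WeakDual.toStrongDual a) with hg
  refine ⟨g, φ, (Lp.stronglyMeasurable g).measurable, ?_, hφ, ?_⟩
  · exact (Lp.memLp g).integrable (by norm_num)
  · rintro h hm ⟨C, hC⟩
    have hmem := bounded_memLp (μ := μ) hm hC
    have h1 : Tendsto (fun n => (Λ (φ n)) (hmem.toLp h)) atTop (𝓝 (a (hmem.toLp h))) :=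
      ((WeakDual.eval_continuous (hmem.toLp h)).tendsto a).comp hlim
    have h2 : ∀ n, (Λ (φ n)) (hmem.toLp h) = ∫ x in T (φ n), h x ∂μ := by
      intro n
      have e1 : (Λ (φ n)) (hmem.toLp h) = inner ℝ (u (φ n)) (hmem.toLp h) := by
        rw [← WeakDual.toStrongDual_apply]
        simp only [hΛ, LinearEquiv.apply_symm_apply]
        rw [InnerProductSpace.toDual_apply_apply]
      rw [e1, hu, L2.inner_indicatorConstLp_one]
      refine setIntegral_congr_ae (hT _) ?_
      filter_upwards [hmem.coeFn_toLp] with x hx _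
      exact hx
    have h3 : a (hmem.toLp h) = ∫ x, g x * h x ∂μ := by
      have e1 : a (hmem.toLp h) = inner ℝ g (hmem.toLp h) := by
        rw [hg, InnerProductSpace.toDual_symm_apply, WeakDual.toStrongDual_apply]
      rw [e1, L2.inner_def]
      refine integral_congr_ae ?_
      filter_upwards [hmem.coeFn_toLp] with x hx
      rw [hx]
      change h x * g x = g x * h x
      ring
    rw [← h3]
    exact h1.congr h2

end Pool.Agent.Helper85.GL
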