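import Pool.Agent.Helper85.GL.Local
import Pool.Agent.Helper85.GL.Weak

/-!
Project GL (helper85), MP_7bfbd3_co: from almost complete sets to complete sets, by weak compactness.
-/

set_option linter.unusedSectionVars false

namespace Pool.Agent.Helper85.GL

open MeasureTheory Set Filter Topology Pool.Agent.Helper8.GC

variable {Ω : Type*} [MeasurableSpace Ω]

private theorem one_sub_bounds {W : Ω → Ω → ℝ} (hW : IsGraphon W) (x y : Ω) :
    0 ≤ 1 - W x y ∧ 1 - W x y ≤ 1 :=
  ⟨by linarith [hW.le_one x y], by linarith [hW.nonneg x y]⟩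

private theorem measurable_right {W : Ω → Ω → ℝ} (hW : IsGraphon W) (x : Ω) :
    Measurable fun y => 1 - W x y :=
  measurable_const.sub (hW.measurable.comp measurable_prodMk_left)

private theorem integral_miss {μ : Measure Ω} [IsProbabilityMeasure μ] {W : Ω → Ω → ℝ}
    (hW : IsGraphon W) {T : Set Ω} (hT : MeasurableSet T) :
    ∫ e, miss W T e ∂(μ.prod μ) = ∫ x in T, (∫ y in T, (1 - W x y) ∂μ) ∂μ := by
  rw [integral_prod _ (Bdd.integrable (bdd_miss hW hT)), ← integral_indicator hT]
  congr 1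
  ext x
  by_cases h : x ∈ T
  · rw [indicator_of_mem h, ← integral_indicator hT]
    congr 1
    ext y
    unfold miss
    by_cases h' : y ∈ T
    · rw [indicator_of_mem h', indicator_of_mem (show (x, y) ∈ T ×ˢ T from ⟨h, h'⟩)]
    · rw [indicator_of_notMem h', indicator_of_notMem fun h'' => h' h''.2]
  · rw [indicator_of_notMem h]
    have : ∀ y, miss W T (x, y) = 0 := fun y => indicator_of_notMem (fun h' => h h'.1) _
    simp only [this, integral_zero]

private theorem set_int_bounds {μ : Measure Ω} [IsProbabilityMeasure μ] {W : Ω → Ω → ℝ}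
    (hW : IsGraphon W) (T : Set Ω) (x : Ω) :
    0 ≤ ∫ y in T, (1 - W x y) ∂μ ∧ ∫ y in T, (1 - W x y) ∂μ ≤ 1 := by
  have hint : Integrable (fun y => 1 - W x y) μ :=
    Integrable.of_bound (measurable_right hW x).aestronglyMeasurable 1
      (Eventually.of_forall fun y => by
        rw [Real.norm_eq_abs, abs_of_nonneg (one_sub_bounds hW x y).1]
        exact (one_sub_bounds hW x y).2)
  constructor
  · exact integral_nonneg fun y => (one_sub_bounds hW x y).1
  · calc ∫ y in T, (1 - W x y) ∂μ ≤ ∫ y, (1 - W x y) ∂μ :=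
        setIntegral_le_integral hint (Eventually.of_forall fun y => (one_sub_bounds hW x y).1)
      _ ≤ ∫ _, (1 : ℝ) ∂μ :=
        integral_mono hint (integrable_const _) fun y => (one_sub_bounds hW x y).2
      _ = 1 := by simp

private theorem measurable_inner {μ : Measure Ω} [IsProbabilityMeasure μ] {W : Ω → Ω → ℝ}
    (hW : IsGraphon W) (T : Set Ω) :
    Measurable fun x => ∫ y in T, (1 - W x y) ∂μ := by
  have h1 : StronglyMeasurable (Function.uncurry fun x y => 1 - W x y) :=
    (measurable_const.sub hW.measurable).stronglyMeasurable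
  exact h1.integral_prod_right.measurable

/-- Complete sets from almost complete sets. -/
theorem exact_clique {μ : Measure Ω} [IsProbabilityMeasure μ]
    [TopologicalSpace.SeparableSpace (Lp ℝ 2 μ)] {W : Ω → Ω → ℝ}
    (hW : IsGraphon W) {S : Set Ω} (hS : MeasurableSet S) {c : ℝ}
    (h : ∀ η : ℝ, 0 < η → ∃ T : Set Ω, MeasurableSet T ∧ T ⊆ S ∧ c - η ≤ μ.real T ∧
      ∫ e, miss W T e ∂(μ.prod μ) ≤ η) :
    ∃ T : Set Ω, MeasurableSet T ∧ T ⊆ S ∧ c ≤ μ.real T ∧
      ∀ᵐ e : Ω × Ω ∂(μ.prod μ), e.1 ∈ T → e.2 ∈ T → W e.1 e.2 = 1 := by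
  have hn : ∀ n : ℕ, (0 : ℝ) < 1 / ((n : ℝ) + 1) := fun n => by positivity
  choose T mT hTS hTc hTm using fun n : ℕ => h _ (hn n)
  obtain ⟨G, φ, mG, iG, hφ, hlim⟩ := weak_limit (μ := μ) mT
  have h1n : Tendsto (fun n : ℕ => 1 / ((φ n : ℝ) + 1)) atTop (𝓝 0) :=
    (tendsto_one_div_add_atTop_nhds_zero_nat (𝕜 := ℝ)).comp hφ.tendsto_atTop
  -- integrals over sets
  have hset : ∀ B : Set Ω, MeasurableSet B →
      Tendsto (fun n => μ.real (B ∩ T (φ n))) atTop (𝓝 (∫ x in B, G x ∂μ)) := by
    intro B hB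
    have h1 := hlim (B.indicator fun _ => (1 : ℝ)) (measurable_const.indicator hB)
      ⟨1, fun x => by by_cases hx : x ∈ B <;> simp [hx]⟩
    have h2 : ∫ x, G x * B.indicator (fun _ => (1 : ℝ)) x ∂μ = ∫ x in B, G x ∂μ := by
      rw [← integral_indicator hB]
      congr 1
      ext x
      by_cases hx : x ∈ B <;> simp [hx]
    rw [h2] at h1
    refine h1.congr fun n => ?_
    rw [integral_indicator hB, Measure.restrict_restrict hB]
    simp
  have hG0 : 0 ≤ᵐ[μ] G := by
    refine ae_nonneg_of_forall_setIntegral_nonneg iG fun s hs _ => ?_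
    exact ge_of_tendsto' (hset s hs) fun n => measureReal_nonneg
  have hG1 : ∀ᵐ x ∂μ, G x ≤ 1 := by
    have h1 : 0 ≤ᵐ[μ] fun x => 1 - G x := by
      refine ae_nonneg_of_forall_setIntegral_nonneg ((integrable_const 1).sub iG)
        fun s hs _ => ?_
      have h2 : ∫ x in s, (1 - G x) ∂μ = μ.real s - ∫ x in s, G x ∂μ := by
        have h3 : ∫ x in s, (1 - G x) ∂μ = ∫ _ in s, (1 : ℝ) ∂μ - ∫ x in s, G x ∂μ :=
          integral_sub (integrable_const 1).integrableOn iG.integrableOn
        rw [h3]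
        simp
      rw [h2, sub_nonneg]
      exact le_of_tendsto' (hset s hs) fun n => measureReal_mono inter_subset_left
    filter_upwards [h1] with x hx
    have hx' : (0 : ℝ) ≤ 1 - G x := hx
    linarith
  have hGS : ∫ x in Sᶜ, G x ∂μ = 0 := by
    have h1 := hset Sᶜ hS.compl
    have h2 : ∀ n, μ.real (Sᶜ ∩ T (φ n)) = 0 := by
      intro n
      have : Sᶜ ∩ T (φ n) = ∅ := by
        ext x
        simp only [mem_inter_iff, mem_compl_iff, mem_empty_iff_false, iff_false, not_and]
        exact fun hx hx' => hx (hTS _ hx')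
      rw [this]
      simp
    simp only [h2] at h1
    exact tendsto_nhds_unique h1 tendsto_const_nhds
  have hGc : c ≤ ∫ x, G x ∂μ := by
    have h1 := hset univ MeasurableSet.univ
    rw [setIntegral_univ] at h1
    have h2 : Tendsto (fun n => c - 1 / ((φ n : ℝ) + 1)) atTop (𝓝 (c - 0)) :=
      tendsto_const_nhds.sub h1n
    rw [sub_zero] at h2
    refine le_of_tendsto_of_tendsto' h2 h1 fun n => ?_
    rw [univ_inter]
    exact hTc (φ n)
  -- the double integral
  set k : Ω → ℝ := fun x => ∫ y, G y * (1 - W x y) ∂μ with hk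
  have hkn : ∀ x, Tendsto (fun n => ∫ y in T (φ n), (1 - W x y) ∂μ) atTop (𝓝 (k x)) :=
    fun x => hlim _ (measurable_right hW x) ⟨1, fun y => by
      rw [abs_of_nonneg (one_sub_bounds hW x y).1]
      exact (one_sub_bounds hW x y).2⟩
  have hk0 : ∀ x, 0 ≤ k x := fun x =>
    ge_of_tendsto' (hkn x) fun n => (set_int_bounds hW (T _) x).1
  have hk1 : ∀ x, k x ≤ 1 := fun x =>
    le_of_tendsto' (hkn x) fun n => (set_int_bounds hW (T _) x).2
  have mk : Measurable k :=
    measurable_of_tendsto_metrizable (fun n => measurable_inner (μ := μ) hW (T (φ n)))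
      (tendsto_pi_nhds.2 hkn)
  have hkint : Integrable k μ := Integrable.of_bound mk.aestronglyMeasurable 1
    (Eventually.of_forall fun x => by rw [Real.norm_eq_abs, abs_of_nonneg (hk0 x)]; exact hk1 x)
  have hnint : ∀ n, Integrable (fun x => ∫ y in T (φ n), (1 - W x y) ∂μ) μ := fun n =>
    Integrable.of_bound (measurable_inner (μ := μ) hW (T (φ n))).aestronglyMeasurable 1
      (Eventually.of_forall fun x => by
        rw [Real.norm_eq_abs, abs_of_nonneg (set_int_bounds hW (T _) x).1]
        exact (set_int_bounds hW (T _) x).2)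
  have hdiff : Tendsto (fun n => ∫ x, |(∫ y in T (φ n), (1 - W x y) ∂μ) - k x| ∂μ) atTop
      (𝓝 (∫ _, (0 : ℝ) ∂μ)) := by
    refine tendsto_integral_of_dominated_convergence (fun _ => (2 : ℝ)) (fun n => ?_)
      (integrable_const _) (fun n => ?_) ?_
    · exact ((hnint n).sub hkint).abs.aestronglyMeasurable
    · refine Eventually.of_forall fun x => ?_
      have h1 := set_int_bounds (μ := μ) hW (T (φ n)) x
      have h2 := hk0 x
      have h3 := hk1 x
      rw [Real.norm_eq_abs, abs_abs, abs_le]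
      constructor <;> linarith [h1.1, h1.2]
    · refine Eventually.of_forall fun x => ?_
      have h1 : Tendsto (fun n => (∫ y in T (φ n), (1 - W x y) ∂μ) - k x) atTop
          (𝓝 (k x - k x)) := (hkn x).sub_const _
      rw [sub_self] at h1
      have h2 := h1.abs
      rwa [abs_zero] at h2
  rw [integral_zero] at hdiff
  have hTk : Tendsto (fun n => ∫ x in T (φ n), k x ∂μ) atTop (𝓝 (∫ x, G x * k x ∂μ)) :=
    hlim k mk ⟨1, fun x => by rw [abs_of_nonneg (hk0 x)]; exact hk1 x⟩
  have hTk0 : Tendsto (fun n => ∫ x in T (φ n), k x ∂μ) atTop (𝓝 0) := by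
    have hub : Tendsto (fun n => 1 / ((φ n : ℝ) + 1) +
        ∫ x, |(∫ y in T (φ n), (1 - W x y) ∂μ) - k x| ∂μ) atTop (𝓝 (0 + 0)) := h1n.add hdiff
    rw [add_zero] at hub
    refine tendsto_of_tendsto_of_tendsto_of_le_of_le tendsto_const_nhds hub
      (fun n => integral_nonneg fun x => hk0 x) fun n => ?_
    have e1 : ∫ x in T (φ n), k x ∂μ = ∫ x in T (φ n), (∫ y in T (φ n), (1 - W x y) ∂μ) ∂μ -
        ∫ x in T (φ n), ((∫ y in T (φ n), (1 - W x y) ∂μ) - k x) ∂μ := by
      have e2 : ∫ x in T (φ n), ((∫ y in T (φ n), (1 - W x y) ∂μ) - k x) ∂μ =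
          ∫ x in T (φ n), (∫ y in T (φ n), (1 - W x y) ∂μ) ∂μ - ∫ x in T (φ n), k x ∂μ :=
        integral_sub (hnint n).integrableOn hkint.integrableOn
      rw [e2]
      ring
    have e3 : |∫ x in T (φ n), ((∫ y in T (φ n), (1 - W x y) ∂μ) - k x) ∂μ| ≤
        ∫ x, |(∫ y in T (φ n), (1 - W x y) ∂μ) - k x| ∂μ :=
      (abs_integral_le_integral_abs).trans (setIntegral_le_integral
        ((hnint n).sub hkint).abs (Eventually.of_forall fun x => abs_nonneg _))
    have e4 := hTm (φ n)
    rw [integral_miss hW (mT (φ n))] at e4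
    have e5 := (abs_le.1 e3).1
    change ∫ x in T (φ n), k x ∂μ ≤ _
    rw [e1]
    linarith
  have hGk : ∫ x, G x * k x ∂μ = 0 := tendsto_nhds_unique hTk hTk0
  have hGkint : Integrable (fun x => G x * k x) μ := by
    refine Integrable.mono' iG.abs (mG.mul mk).aestronglyMeasurable
      (Eventually.of_forall fun x => ?_)
    rw [Real.norm_eq_abs, abs_mul, abs_of_nonneg (hk0 x)]
    exact mul_le_of_le_one_right (abs_nonneg _) (hk1 x)
  have hGk0 : ∀ᵐ x ∂μ, G x * k x = 0 := by
    have h1 := (integral_eq_zero_iff_of_nonneg_ae (f := fun x => G x * k x)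
      (by filter_upwards [hG0] with x hx using mul_nonneg hx (hk0 x)) hGkint).1 hGk
    filter_upwards [h1] with x hx using hx
  -- the set
  have hGSc : ∀ᵐ x ∂μ, x ∈ Sᶜ → G x = 0 := by
    have h1 : ∀ᵐ x ∂(μ.restrict Sᶜ), G x = 0 := by
      have h2 := (integral_eq_zero_iff_of_nonneg_ae (μ := μ.restrict Sᶜ) (f := G)
        (ae_restrict_of_ae hG0) iG.integrableOn).1 hGS
      filter_upwards [h2] with x hx using hx
    exact (ae_restrict_iff' hS.compl).1 h1
  refine ⟨S ∩ {x | 0 < G x}, hS.inter (measurableSet_lt measurable_const mG),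
    inter_subset_left, ?_, ?_⟩
  · set T₀ := S ∩ {x | 0 < G x} with hT₀
    have mT₀ : MeasurableSet T₀ := hS.inter (measurableSet_lt measurable_const mG)
    have h1 : ∫ x, G x ∂μ = ∫ x in T₀, G x ∂μ := by
      rw [← integral_indicator mT₀]
      refine integral_congr_ae ?_
      filter_upwards [hG0, hGSc] with x hx hx'
      by_cases hm : x ∈ T₀
      · rw [indicator_of_mem hm]
      · rw [indicator_of_notMem hm]
        by_cases hxS : x ∈ S
        · have h2 : ¬ (0 < G x) := fun h3 => hm ⟨hxS, h3⟩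
          exact le_antisymm (not_lt.1 h2) hx
        · exact hx' hxS
    have h2 : ∫ x in T₀, G x ∂μ ≤ ∫ _ in T₀, (1 : ℝ) ∂μ :=
      integral_mono_ae iG.integrableOn (integrable_const 1).integrableOn
        (ae_restrict_of_ae hG1)
    have h3 : ∫ _ in T₀, (1 : ℝ) ∂μ = μ.real T₀ := by simp
    linarith
  · set T₀ := S ∩ {x | 0 < G x} with hT₀
    have mT₀ : MeasurableSet T₀ := hS.inter (measurableSet_lt measurable_const mG)
    have hmeas : MeasurableSet {e : Ω × Ω | e.1 ∈ T₀ → e.2 ∈ T₀ → W e.1 e.2 = 1} := by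
      have h1 : {e : Ω × Ω | e.1 ∈ T₀ → e.2 ∈ T₀ → W e.1 e.2 = 1} =
          (T₀ ×ˢ T₀)ᶜ ∪ {e : Ω × Ω | W e.1 e.2 = 1} := by
        ext e
        simp only [mem_ofPred_eq, mem_union, mem_compl_iff, mem_prod, not_and]
        tauto
      rw [h1]
      exact (mT₀.prod mT₀).compl.union (hW.measurable (measurableSet_singleton 1))
    rw [Measure.ae_prod_iff_ae_ae hmeas]
    filter_upwards [hGk0] with x hx
    by_cases hxT : x ∈ T₀
    · have hkx : k x = 0 := by
        rcases mul_eq_zero.1 hx with h1 | h1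
        · exact absurd h1 (ne_of_gt hxT.2)
        · exact h1
      have hint : Integrable (fun y => G y * (1 - W x y)) μ := by
        refine Integrable.mono' iG.abs (mG.mul (measurable_right hW x)).aestronglyMeasurable
          (Eventually.of_forall fun y => ?_)
        rw [Real.norm_eq_abs, abs_mul, abs_of_nonneg (one_sub_bounds hW x y).1]
        exact mul_le_of_le_one_right (abs_nonneg _) (one_sub_bounds hW x y).2
      have h2 := (integral_eq_zero_iff_of_nonneg_ae (f := fun y => G y * (1 - W x y))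
        (by filter_upwards [hG0] with y hy using mul_nonneg hy (one_sub_bounds hW x y).1)
        hint).1 hkx
      filter_upwards [h2] with y hy _ hyT
      have hy' : G y * (1 - W x y) = 0 := hy
      rcases mul_eq_zero.1 hy' with h3 | h3
      · exact absurd h3 (ne_of_gt hyT.2)
      · change W x y = 1
        linarith
    · exact Eventually.of_forall fun y h1 => absurd h1 hxT

end Pool.Agent.Helper85.GL
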