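import Pool.Agent.Helper85.GL.Deg
import Pool.Agent.Helper85.GL.Exact

/-!
Project GL (helper85), MP_7bfbd3_co: complete sets in a graphon of least crossing density.
-/

set_option linter.unusedSectionVars false

namespace Pool.Agent.Helper85.GL

open MeasureTheory Set Pool.Agent.Helper8.GC

variable {Ω : Type*} [MeasurableSpace Ω]

/-- `W = 1` almost everywhere on `T × T`. -/
def Complete (μ : Measure Ω) (W : Ω → Ω → ℝ) (T : Set Ω) : Prop :=
  ∀ᵐ e : Ω × Ω ∂(μ.prod μ), e.1 ∈ T → e.2 ∈ T → W e.1 e.2 = 1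

theorem complete_empty (μ : Measure Ω) (W : Ω → Ω → ℝ) : Complete μ W (∅ : Set Ω) :=
  Filter.Eventually.of_forall fun _ h => absurd h (notMem_empty _)

theorem wm_mono {μ : Measure Ω} [IsProbabilityMeasure μ] {W : Ω → Ω → ℝ} (hW : IsGraphon W)
    {E F : Set (Ω × Ω)} (hE : MeasurableSet E) (hF : MeasurableSet F) (h : E ⊆ F) :
    wm μ W E ≤ wm μ W F := by
  unfold wm
  exact integral_mono (integrable_wm hW hE) (integrable_wm hW hF) fun e =>
    indicator_le_indicator_of_subset h (fun e => hW.nonneg _ _) e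

/-- The leftmost part of a drawing. -/
theorem cap_region {μ : Measure Ω} [IsProbabilityMeasure μ] {W : Ω → Ω → ℝ} (hW : IsGraphon W)
    {Δ : ℝ} (hΔ : ∀ᵐ x ∂μ, ∫ y, W x y ∂μ ≤ Δ) {f : Ω → ℝ × ℝ} (hf : IsDrawing f)
    (hg : Generic μ f) {ρ : ℝ} (h0 : 0 < ρ) (h1 : ρ < 1) :
    ∃ (T : Set Ω) (R : Set (ℝ × ℝ)), MeasurableSet T ∧ T ⊆ univ ∧ IsOpen R ∧ Convex ℝ R ∧
      (∀ x ∈ T, f x ∈ R) ∧ ρ ≤ μ.real T ∧ wm μ W (Hit f R) ≤ 2 * (Δ * ρ) := by
  have hφ : Measurable fun ω => (f ω).1 := measurable_fst.comp hf.measurable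
  have hno : ∀ t, μ {ω | (f ω).1 = t} = 0 := by
    intro t
    have := hg.line_null hf.measurable t (α := 1) (β := 0) (Or.inl one_ne_zero)
    simpa using this
  obtain ⟨t, ht⟩ := exists_split hφ hno MeasurableSet.univ (m := ρ) h0 (by simpa using h1)
  rw [univ_inter] at ht
  have mT : MeasurableSet {ω | (f ω).1 < t} := measurableSet_lt hφ measurable_const
  refine ⟨{ω | (f ω).1 < t}, half 1 0 t, mT, subset_univ _, isOpen_half _ _ _,
    convex_half _ _ _, fun x hx => ?_, ht.ge, ?_⟩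
  · have hx' : (f x).1 < t := hx
    change 1 * (f x).1 + 0 * (f x).2 < t
    linarith
  · have h2 := wm_cross_le (μ := μ) hW hΔ mT
    rw [ht] at h2
    refine (wm_mono hW (measurableSet_hit hf.measurable (isOpen_half _ _ _))
      ((mT.prod MeasurableSet.univ).union (MeasurableSet.univ.prod mT)) ?_).trans h2
    rintro e ⟨τ, ⟨hτ0, hτ1⟩, hτ⟩
    have h3 : 1 * ((1 - τ) * (f e.1).1 + τ * (f e.2).1) +
        0 * ((1 - τ) • f e.1 + τ • f e.2).2 < t := hτ
    by_cases h4 : (f e.1).1 < t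
    · exact Or.inl ⟨h4, mem_univ _⟩
    · by_cases h5 : (f e.2).1 < t
      · exact Or.inr ⟨mem_univ _, h5⟩
      · exfalso
        push Not at h4 h5
        have l1 : (1 - τ) * t ≤ (1 - τ) * (f e.1).1 :=
          mul_le_mul_of_nonneg_left h4 (by linarith)
        have l2 : τ * t ≤ τ * (f e.2).1 := mul_le_mul_of_nonneg_left h5 hτ0
        linarith

section

variable {μ : Measure Ω} [IsProbabilityMeasure μ] [TopologicalSpace.SeparableSpace (Lp ℝ 2 μ)]

/-- A minimiser has a complete set of measure `4 cd W / (mass W * Δ)`. -/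
theorem big_clique (hc : ∃ c : Ω → ℝ × ℝ, IsDrawing c ∧ Generic μ c)
    {W : Ω → Ω → ℝ} (hW : IsGraphon W)
    (hmin : ∀ W' : Ω → Ω → ℝ, IsGraphon W' → mass μ W' = mass μ W → cd μ W ≤ cd μ W')
    (hp : 0 < mass μ W) {Δ : ℝ} (hΔ : ∀ᵐ x ∂μ, ∫ y, W x y ∂μ ≤ Δ) :
    ∃ T : Set Ω, MeasurableSet T ∧ 4 * (cd μ W / (mass μ W * Δ)) ≤ μ.real T ∧
      Complete μ W T := by
  set p := mass μ W with hpdef
  set κ := cd μ W with hκdef
  have hpΔ : p ≤ Δ := mass_le_deg hW hΔ
  have hΔ0 : 0 < Δ := lt_of_lt_of_le hp hpΔ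
  have hκ0 : 0 ≤ κ := cd_nonneg hW
  have hκp : κ ≤ p ^ 2 / 8 := cd_le_sq hW
  set a := 4 * (κ / (p * Δ)) with hadef
  have ha0 : 0 ≤ a := by positivity
  have ha1 : a ≤ 1 / 2 := by
    have h1 : κ / (p * Δ) ≤ 1 / 8 := by
      rw [div_le_iff₀ (by positivity)]
      have h2 : p * p ≤ p * Δ := mul_le_mul_of_nonneg_left hpΔ hp.le
      nlinarith
    linarith
  rcases eq_or_lt_of_le ha0 with h0 | h0
  · exact ⟨∅, MeasurableSet.empty, by rw [← h0]; simp, complete_empty μ W⟩
  have haΔ : 2 * (Δ * a) * p = 8 * κ := by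
    rw [hadef]
    field_simp
    ring
  obtain ⟨T, mT, -, hT, hT'⟩ := exact_clique (μ := μ) hW MeasurableSet.univ (c := a)
    fun η hη => by
      set ρ := max (a - η) (a / 2) with hρdef
      have hρa : ρ < a := max_lt (by linarith) (by linarith)
      have hρ0 : 0 < ρ := lt_of_lt_of_le (by linarith) (le_max_right _ _)
      have hm : 2 * (Δ * ρ) * p < 8 * κ := by
        rw [← haΔ]
        have h1 : Δ * ρ < Δ * a := mul_lt_mul_of_pos_left hρa hΔ0
        have h2 : 2 * (Δ * ρ) < 2 * (Δ * a) := by linarith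
        exact mul_lt_mul_of_pos_right h2 hp
      obtain ⟨T, mT, hTS, hTρ, hTm⟩ := near_clique hc hW hmin hp (S := univ) (a := ρ) hm
        (fun f hf hg => cap_region hW hΔ hf hg hρ0 (by linarith)) hη
      exact ⟨T, mT, hTS, (le_max_left _ _).trans hTρ, hTm⟩
  exact ⟨T, mT, hT, hT'⟩

/-- Every set contains a large complete set. -/
theorem local_clique (hc : ∃ c : Ω → ℝ × ℝ, IsDrawing c ∧ Generic μ c)
    {W : Ω → Ω → ℝ} (hW : IsGraphon W)
    (hmin : ∀ W' : Ω → Ω → ℝ, IsGraphon W' → mass μ W' = mass μ W → cd μ W ≤ cd μ W')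
    (hp : 0 < mass μ W) {j : ℕ} (hj : (3 / 4) ^ j * mass μ W ^ 2 < 8 * cd μ W)
    {S : Set Ω} (hS : MeasurableSet S) :
    ∃ T : Set Ω, MeasurableSet T ∧ T ⊆ S ∧ μ.real S / 6 ^ j ≤ μ.real T ∧ Complete μ W T := by
  rcases eq_or_lt_of_le (measureReal_nonneg (μ := μ) (s := S)) with h0 | h0
  · refine ⟨∅, MeasurableSet.empty, empty_subset _, ?_, complete_empty μ W⟩
    rw [← h0]
    simp
  refine exact_clique (μ := μ) hW hS fun η hη => ?_
  obtain ⟨T, mT, hTS, hTa, hTm⟩ := near_clique hc hW hmin hp (S := S)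
    (a := μ.real S / 6 ^ j) (m := (3 / 4) ^ j * mass μ W)
    (by linarith [show (3 / 4 : ℝ) ^ j * mass μ W * mass μ W =
      (3 / 4) ^ j * mass μ W ^ 2 by ring])
    (fun f hf hg => exists_region hW hf.measurable hg hS h0 j) hη
  exact ⟨T, mT, hTS, by linarith, hTm⟩

/-- A minimiser is covered by disjoint complete sets, at a geometric rate. -/
theorem cover (hc : ∃ c : Ω → ℝ × ℝ, IsDrawing c ∧ Generic μ c)
    {W : Ω → Ω → ℝ} (hW : IsGraphon W)
    (hmin : ∀ W' : Ω → Ω → ℝ, IsGraphon W' → mass μ W' = mass μ W → cd μ W ≤ cd μ W')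
    (hp : 0 < mass μ W) {j : ℕ} (hj : (3 / 4) ^ j * mass μ W ^ 2 < 8 * cd μ W) :
    ∃ T : ℕ → Set Ω, (∀ i, MeasurableSet (T i)) ∧ (∀ i i', i ≠ i' → Disjoint (T i) (T i')) ∧
      (∀ i, Complete μ W (T i)) ∧
      ∀ n, μ.real (⋃ i ∈ Finset.range n, T i)ᶜ ≤ (1 - 1 / 6 ^ j) ^ n := by
  choose F mF hFS hFμ hFc using fun S : {S : Set Ω // MeasurableSet S} =>
    local_clique hc hW hmin hp hj S.2
  let U : ℕ → {S : Set Ω // MeasurableSet S} := fun n =>
    Nat.rec ⟨univ, MeasurableSet.univ⟩ (fun _ U => ⟨U.1 \ F U, U.2.diff (mF U)⟩) n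
  have hU : ∀ n, (U (n + 1)).1 = (U n).1 \ F (U n) := fun n => rfl
  have hanti : ∀ n m, n ≤ m → (U m).1 ⊆ (U n).1 := by
    intro n m h
    induction m, h using Nat.le_induction with
    | base => exact Subset.rfl
    | succ m _ ih =>
      rw [hU m]
      exact sdiff_subset.trans ih
  have hdis : ∀ i i', i < i' → Disjoint (F (U i)) (F (U i')) := by
    intro i i' h
    have h1 : F (U i') ⊆ (U (i + 1)).1 := (hFS _).trans (hanti _ _ h)
    rw [hU i] at h1
    exact disjoint_left.2 fun x hx hx' => (h1 hx').2 hx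
  refine ⟨fun i => F (U i), fun i => mF _, fun i i' h => ?_, fun i => hFc _, fun n => ?_⟩
  · rcases lt_or_gt_of_ne h with h | h
    · exact hdis _ _ h
    · exact (hdis _ _ h).symm
  · have hcompl : ∀ n, (⋃ i ∈ Finset.range n, F (U i))ᶜ = (U n).1 := by
      intro n
      induction n with
      | zero =>
        simp only [Finset.range_zero, Finset.notMem_empty, iUnion_of_empty, iUnion_empty,
          compl_empty]
        rfl
      | succ n ih =>
        rw [hU n, ← ih, Finset.range_add_one, Finset.set_biUnion_insert]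
        ext x
        simp only [mem_compl_iff, mem_union, mem_sdiff]
        tauto
    have hμ : ∀ n, μ.real (U n).1 ≤ (1 - 1 / 6 ^ j) ^ n := by
      intro n
      induction n with
      | zero =>
        rw [pow_zero]
        exact measureReal_le_one
      | succ n ih =>
        have h1 : μ.real ((U n).1 \ F (U n)) = μ.real (U n).1 - μ.real (F (U n)) :=
          measureReal_sdiff (hFS _) (mF _)
        rw [hU n, h1, pow_succ]
        have h2 := hFμ (U n)
        have h3 : (0 : ℝ) ≤ 1 - 1 / 6 ^ j := by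
          have : (1 : ℝ) / 6 ^ j ≤ 1 := by
            rw [div_le_one (by positivity)]
            exact one_le_pow₀ (by norm_num)
          linarith
        have h4 : μ.real (U n).1 * (1 - 1 / 6 ^ j) ≤ (1 - 1 / 6 ^ j) ^ n * (1 - 1 / 6 ^ j) :=
          mul_le_mul_of_nonneg_right ih h3
        have h5 : μ.real (U n).1 * (1 - 1 / 6 ^ j) =
            μ.real (U n).1 - μ.real (U n).1 / 6 ^ j := by ring
        linarith
    rw [hcompl]
    exact hμ n

end

end Pool.Agent.Helper85.GL
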