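import Pool.Agent.Helper85.GL.Part

/-!
Project GL (helper85), MP_7bfbd3_co: a graphon of least crossing density is locally complete.
-/

set_option linter.unusedSectionVars false

namespace Pool.Agent.Helper85.GL

open MeasureTheory Set Pool.Agent.Helper8.GC

variable {Ω : Type*} [MeasurableSpace Ω]

theorem isGraphon_smul {W : Ω → Ω → ℝ} (hW : IsGraphon W) {t : ℝ}
    (h0 : 0 ≤ t) (h1 : t ≤ 1) : IsGraphon (fun x y => t * W x y) where
  measurable := hW.measurable.const_mul t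
  symm x y := by rw [hW.symm x y]
  nonneg x y := mul_nonneg h0 (hW.nonneg x y)
  le_one x y := mul_le_one₀ h1 (hW.nonneg x y) (hW.le_one x y)

theorem mass_smul (μ : Measure Ω) (W : Ω → Ω → ℝ) (t : ℝ) :
    mass μ (fun x y => t * W x y) = t * mass μ W := by
  unfold mass
  rw [integral_const_mul]

theorem cdf_smul (μ : Measure Ω) (W : Ω → Ω → ℝ) (t : ℝ) (f : Ω → ℝ × ℝ) :
    cdf μ (fun x y => t * W x y) f = t ^ 2 * cdf μ W f := by
  have h1 : cdf μ (fun x y => t * W x y) f =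
      (1 / 8) * bil μ f (fun e => t * W e.1 e.2) (fun e => t * W e.1 e.2) := rfl
  rw [h1, bil_smul_left (u := fun e => W e.1 e.2), bil_smul_right (v := fun e => W e.1 e.2),
    cdf_eq_bil]
  ring

theorem cd_nonneg {μ : Measure Ω} {W : Ω → Ω → ℝ} (hW : IsGraphon W) : 0 ≤ cd μ W := by
  unfold cd
  exact Real.iInf_nonneg fun f => cdf_nonneg hW _

/-- Comparison with a graphon of larger mass. -/
theorem scale {μ : Measure Ω} {W : Ω → Ω → ℝ} (hW : IsGraphon W)
    (hmin : ∀ W' : Ω → Ω → ℝ, IsGraphon W' → mass μ W' = mass μ W → cd μ W ≤ cd μ W')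
    (hp : 0 < mass μ W) {V : Ω → Ω → ℝ} (hV : IsGraphon V) {f : Ω → ℝ × ℝ} (hf : IsDrawing f)
    {s : ℝ} (hs : 0 ≤ s) (hm : mass μ W + s ≤ mass μ V) :
    cd μ W + 2 * cd μ W * s / mass μ W ≤ cdf μ V f := by
  set p := mass μ W with hpdef
  set m := mass μ V with hmdef
  have hm0 : 0 < m := by linarith
  have ht0 : 0 ≤ p / m := by positivity
  have ht1 : p / m ≤ 1 := by rw [div_le_one hm0]; linarith
  have hκ : 0 ≤ cd μ W := cd_nonneg hW
  have h1 : cd μ W ≤ (p / m) ^ 2 * cdf μ V f := by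
    have h2 := hmin _ (isGraphon_smul hV ht0 ht1) (by
      rw [mass_smul, ← hmdef]
      exact div_mul_cancel₀ p hm0.ne')
    have h3 := cd_le (μ := μ) (isGraphon_smul hV ht0 ht1) hf
    rw [cdf_smul] at h3
    exact h2.trans h3
  have h4 : cd μ W * m ^ 2 ≤ p ^ 2 * cdf μ V f := by
    have h5 := mul_le_mul_of_nonneg_right h1 (sq_nonneg m)
    have h6 : (p / m) ^ 2 * cdf μ V f * m ^ 2 = p ^ 2 * cdf μ V f := by
      field_simp
    rw [h6] at h5
    exact h5
  have h7 : p ^ 2 + 2 * p * s ≤ m ^ 2 := by nlinarith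
  have h8 : cd μ W * (p ^ 2 + 2 * p * s) ≤ p ^ 2 * cdf μ V f :=
    (mul_le_mul_of_nonneg_left h7 hκ).trans h4
  have h9 : (cd μ W + 2 * cd μ W * s / p) * p ^ 2 = cd μ W * (p ^ 2 + 2 * p * s) := by
    field_simp
  have h10 : (cd μ W + 2 * cd μ W * s / p) * p ^ 2 ≤ cdf μ V f * p ^ 2 := by
    rw [h9]
    linarith
  exact le_of_mul_le_mul_right h10 (by positivity)

/-- The missing edges inside a set. -/
noncomputable def miss (W : Ω → Ω → ℝ) (T : Set Ω) (e : Ω × Ω) : ℝ :=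
  (T ×ˢ T).indicator (fun e : Ω × Ω => 1 - W e.1 e.2) e

theorem miss_nonneg {W : Ω → Ω → ℝ} (hW : IsGraphon W) (T : Set Ω) (e : Ω × Ω) :
    0 ≤ miss W T e :=
  indicator_nonneg (fun e _ => sub_nonneg.2 (hW.le_one e.1 e.2)) e

theorem miss_le {W : Ω → Ω → ℝ} (hW : IsGraphon W) (T : Set Ω) (e : Ω × Ω) :
    miss W T e ≤ 1 - W e.1 e.2 :=
  indicator_le_self' (f := fun e : Ω × Ω => 1 - W e.1 e.2)
    (fun _ _ => sub_nonneg.2 (hW.le_one _ _)) e

theorem measurable_miss {W : Ω → Ω → ℝ} (hW : IsGraphon W) {T : Set Ω} (hT : MeasurableSet T) :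
    Measurable (miss W T) :=
  (measurable_const.sub hW.measurable).indicator (hT.prod hT)

theorem bdd_miss {W : Ω → Ω → ℝ} (hW : IsGraphon W) {T : Set Ω} (hT : MeasurableSet T) :
    Bdd (miss W T) :=
  ⟨measurable_miss hW hT, 1, fun e => abs_le.2 ⟨by linarith [miss_nonneg hW T e],
    by linarith [miss_le hW T e, hW.nonneg e.1 e.2]⟩⟩

theorem miss_swap {W : Ω → Ω → ℝ} (hW : IsGraphon W) (T : Set Ω) (x y : Ω) :
    miss W T (x, y) = miss W T (y, x) := by
  unfold miss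
  by_cases h : (x, y) ∈ T ×ˢ T
  · have h' : (y, x) ∈ T ×ˢ T := ⟨h.2, h.1⟩
    rw [indicator_of_mem h, indicator_of_mem h']
    change 1 - W x y = 1 - W y x
    rw [hW.symm x y]
  · have h' : (y, x) ∉ T ×ˢ T := fun h' => h ⟨h'.2, h'.1⟩
    rw [indicator_of_notMem h, indicator_of_notMem h']

theorem isGraphon_add_miss {W : Ω → Ω → ℝ} (hW : IsGraphon W) {T : Set Ω}
    (hT : MeasurableSet T) {τ : ℝ} (h0 : 0 ≤ τ) (h1 : τ ≤ 1) :
    IsGraphon (fun x y => W x y + τ * miss W T (x, y)) where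
  measurable := hW.measurable.add ((measurable_miss hW hT).const_mul τ)
  symm x y := by rw [hW.symm x y, miss_swap hW]
  nonneg x y := add_nonneg (hW.nonneg x y) (mul_nonneg h0 (miss_nonneg hW T _))
  le_one x y := by
    have h2 := miss_le hW T (x, y)
    have h3 := mul_le_mul_of_nonneg_right h1 (miss_nonneg hW T (x, y))
    have h2' : miss W T (x, y) ≤ 1 - W x y := h2
    linarith

theorem bil_le_prod {μ : Measure Ω} [IsProbabilityMeasure μ] {f : Ω → ℝ × ℝ}
    (hf : Measurable f) {u v a b : Ω × Ω → ℝ} (hu : Bdd u) (hv : Bdd v) (ha : Bdd a) (hb : Bdd b)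
    (h : ∀ q : (Ω × Ω) × (Ω × Ω), u q.1 * v q.2 * (crossing f).indicator (fun _ => (1 : ℝ)) q ≤
      a q.1 * b q.2) :
    bil μ f u v ≤ (∫ e, a e ∂(μ.prod μ)) * ∫ e, b e ∂(μ.prod μ) := by
  rw [← integral_prod_mul a b]
  unfold bil
  refine integral_mono (integrable_bil hf hu hv) ?_ h
  obtain ⟨ma, C, hC⟩ := ha
  obtain ⟨mb, D, hD⟩ := hb
  refine Integrable.of_bound ((ma.comp measurable_fst).mul
    (mb.comp measurable_snd)).aestronglyMeasurable (C * D)
    (Filter.Eventually.of_forall fun q => ?_)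
  rw [Real.norm_eq_abs, abs_mul]
  exact mul_le_mul (hC _) (hD _) (abs_nonneg _) ((abs_nonneg _).trans (hC q.1))

theorem bdd_ind {W : Ω → Ω → ℝ} (hW : IsGraphon W) {E : Set (Ω × Ω)} (hE : MeasurableSet E) :
    Bdd (E.indicator (fun e : Ω × Ω => W e.1 e.2)) := by
  refine ⟨hW.measurable.indicator hE, 1, fun e => ?_⟩
  by_cases h : e ∈ E
  · rw [indicator_of_mem h, abs_of_nonneg (hW.nonneg _ _)]
    exact hW.le_one _ _
  · rw [indicator_of_notMem h]
    simp

private theorem ind_le_one (f : Ω → ℝ × ℝ) (q : (Ω × Ω) × (Ω × Ω)) :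
    (crossing f).indicator (fun _ => (1 : ℝ)) q ≤ 1 := by
  by_cases h : q ∈ crossing f <;> simp [h]

private theorem ind_nonneg (f : Ω → ℝ × ℝ) (q : (Ω × Ω) × (Ω × Ω)) :
    0 ≤ (crossing f).indicator (fun _ => (1 : ℝ)) q :=
  indicator_nonneg (fun _ _ => zero_le_one) q

/-- The cost of the missing edges inside a region. -/
theorem bil_miss_left {μ : Measure Ω} [IsProbabilityMeasure μ] {W : Ω → Ω → ℝ}
    (hW : IsGraphon W) {f : Ω → ℝ × ℝ} (hf : Measurable f) {T : Set Ω} (hT : MeasurableSet T)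
    {R : Set (ℝ × ℝ)} (hR : IsOpen R) (hRc : Convex ℝ R) (hTR : ∀ x ∈ T, f x ∈ R) :
    bil μ f (miss W T) (fun e => W e.1 e.2) ≤
      (∫ e, miss W T e ∂(μ.prod μ)) * wm μ W (Hit f R) := by
  refine bil_le_prod hf (bdd_miss hW hT) hW.bdd (bdd_miss hW hT)
    (bdd_ind hW (measurableSet_hit hf hR)) fun q => ?_
  by_cases h1 : q.1 ∈ T ×ˢ T
  · by_cases h2 : q ∈ crossing f
    · have h3 : q.2 ∈ Hit f R := hit_of_cross hRc (hTR _ h1.1) (hTR _ h1.2) h2
      rw [indicator_of_mem h2, indicator_of_mem h3, mul_one]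
    · rw [indicator_of_notMem h2, mul_zero]
      exact mul_nonneg (miss_nonneg hW T _) (indicator_nonneg (fun _ _ => hW.nonneg _ _) _)
  · have h3 : miss W T q.1 = 0 := indicator_of_notMem h1 _
    rw [h3]
    simp

theorem bil_miss_right {μ : Measure Ω} [IsProbabilityMeasure μ] {W : Ω → Ω → ℝ}
    (hW : IsGraphon W) {f : Ω → ℝ × ℝ} (hf : Measurable f) {T : Set Ω} (hT : MeasurableSet T)
    {R : Set (ℝ × ℝ)} (hR : IsOpen R) (hRc : Convex ℝ R) (hTR : ∀ x ∈ T, f x ∈ R) :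
    bil μ f (fun e => W e.1 e.2) (miss W T) ≤
      (∫ e, miss W T e ∂(μ.prod μ)) * wm μ W (Hit f R) := by
  rw [mul_comm]
  refine bil_le_prod hf hW.bdd (bdd_miss hW hT)
    (bdd_ind hW (measurableSet_hit hf hR)) (bdd_miss hW hT) fun q => ?_
  by_cases h1 : q.2 ∈ T ×ˢ T
  · by_cases h2 : q ∈ crossing f
    · have h3 : q.1 ∈ Hit f R :=
        hit_of_cross hRc (hTR _ h1.1) (hTR _ h1.2) (Cross.symm h2)
      rw [indicator_of_mem h2, indicator_of_mem h3, mul_one]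
    · rw [indicator_of_notMem h2, mul_zero]
      exact mul_nonneg (indicator_nonneg (fun _ _ => hW.nonneg _ _) _) (miss_nonneg hW T _)
  · have h3 : miss W T q.2 = 0 := indicator_of_notMem h1 _
    rw [h3]
    simp

theorem bil_miss_miss {μ : Measure Ω} [IsProbabilityMeasure μ] {W : Ω → Ω → ℝ}
    (hW : IsGraphon W) {f : Ω → ℝ × ℝ} (hf : Measurable f) {T : Set Ω} (hT : MeasurableSet T) :
    bil μ f (miss W T) (miss W T) ≤
      (∫ e, miss W T e ∂(μ.prod μ)) * ∫ e, miss W T e ∂(μ.prod μ) := by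
  refine bil_le_prod hf (bdd_miss hW hT) (bdd_miss hW hT) (bdd_miss hW hT) (bdd_miss hW hT)
    fun q => ?_
  exact mul_le_of_le_one_right (mul_nonneg (miss_nonneg hW T _) (miss_nonneg hW T _))
    (ind_le_one f q)

theorem Bdd.integrable {μ : Measure Ω} [IsProbabilityMeasure μ] {u : Ω × Ω → ℝ} (hu : Bdd u) :
    Integrable u (μ.prod μ) := by
  obtain ⟨mu, C, hC⟩ := hu
  exact Integrable.of_bound mu.aestronglyMeasurable C
    (Filter.Eventually.of_forall fun e => by rw [Real.norm_eq_abs]; exact hC e)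

/-- The crossing density after adding missing edges. -/
theorem cdf_add_miss {μ : Measure Ω} [IsProbabilityMeasure μ] {W : Ω → Ω → ℝ}
    (hW : IsGraphon W) {f : Ω → ℝ × ℝ} (hf : Measurable f) {T : Set Ω} (hT : MeasurableSet T)
    {R : Set (ℝ × ℝ)} (hR : IsOpen R) (hRc : Convex ℝ R) (hTR : ∀ x ∈ T, f x ∈ R)
    {τ m : ℝ} (h0 : 0 ≤ τ) (hm : wm μ W (Hit f R) ≤ m) :
    cdf μ (fun x y => W x y + τ * miss W T (x, y)) f ≤
      cdf μ W f + (2 * (τ * ∫ e, miss W T e ∂(μ.prod μ)) * m +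
        (τ * ∫ e, miss W T e ∂(μ.prod μ)) ^ 2) / 8 := by
  set η := ∫ e, miss W T e ∂(μ.prod μ) with hη
  have hη0 : 0 ≤ η := integral_nonneg fun e => miss_nonneg hW T e
  have bW := hW.bdd
  have bU := (bdd_miss hW hT).smul τ
  have e1 : cdf μ (fun x y => W x y + τ * miss W T (x, y)) f =
      (1 / 8) * bil μ f (fun e => W e.1 e.2 + τ * miss W T e)
        (fun e => W e.1 e.2 + τ * miss W T e) := rfl
  rw [e1, bil_add_left hf bW bU (bW.add bU), bil_add_right hf bW bW bU,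
    bil_add_right hf bU bW bU, bil_smul_left (u := miss W T), bil_smul_right (v := miss W T),
    bil_smul_left (u := miss W T), bil_smul_right (v := miss W T), cdf_eq_bil]
  have k1 := bil_miss_left (μ := μ) hW hf hT hR hRc hTR
  have k2 := bil_miss_right (μ := μ) hW hf hT hR hRc hTR
  have k3 := bil_miss_miss (μ := μ) hW hf hT
  have l1 : τ * bil μ f (miss W T) (fun e => W e.1 e.2) ≤ τ * (η * m) :=
    mul_le_mul_of_nonneg_left (k1.trans (mul_le_mul_of_nonneg_left hm hη0)) h0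
  have l2 : τ * bil μ f (fun e => W e.1 e.2) (miss W T) ≤ τ * (η * m) :=
    mul_le_mul_of_nonneg_left (k2.trans (mul_le_mul_of_nonneg_left hm hη0)) h0
  have l3 : τ * (τ * bil μ f (miss W T) (miss W T)) ≤ τ * (τ * (η * η)) :=
    mul_le_mul_of_nonneg_left (mul_le_mul_of_nonneg_left k3 h0) h0
  have e2 : (2 * (τ * η) * m + (τ * η) ^ 2) / 8 =
      (1 / 8) * (τ * (η * m) + τ * (η * m) + τ * (τ * (η * η))) := by ring
  rw [e2]
  linarith

theorem mass_add_miss {μ : Measure Ω} [IsProbabilityMeasure μ] {W : Ω → Ω → ℝ}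
    (hW : IsGraphon W) {T : Set Ω} (hT : MeasurableSet T) (τ : ℝ) :
    mass μ (fun x y => W x y + τ * miss W T (x, y)) =
      mass μ W + τ * ∫ e, miss W T e ∂(μ.prod μ) := by
  unfold mass
  have h1 : ∫ e : Ω × Ω, (W e.1 e.2 + τ * miss W T (e.1, e.2)) ∂(μ.prod μ) =
      ∫ e : Ω × Ω, W e.1 e.2 ∂(μ.prod μ) + ∫ e : Ω × Ω, τ * miss W T e ∂(μ.prod μ) :=
    integral_add (Bdd.integrable hW.bdd) (Bdd.integrable ((bdd_miss hW hT).smul τ))
  rw [h1, integral_const_mul]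

/-- A minimiser is almost complete on the sets which lie in a region met by few edges. -/
theorem near_clique {μ : Measure Ω} [IsProbabilityMeasure μ]
    (hc : ∃ c : Ω → ℝ × ℝ, IsDrawing c ∧ Generic μ c)
    {W : Ω → Ω → ℝ} (hW : IsGraphon W)
    (hmin : ∀ W' : Ω → Ω → ℝ, IsGraphon W' → mass μ W' = mass μ W → cd μ W ≤ cd μ W')
    (hp : 0 < mass μ W) {S : Set Ω} {a m : ℝ} (hm : m * mass μ W < 8 * cd μ W)
    (hreg : ∀ f : Ω → ℝ × ℝ, IsDrawing f → Generic μ f → ∃ (T : Set Ω) (R : Set (ℝ × ℝ)),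
      MeasurableSet T ∧ T ⊆ S ∧ IsOpen R ∧ Convex ℝ R ∧ (∀ x ∈ T, f x ∈ R) ∧
      a ≤ μ.real T ∧ wm μ W (Hit f R) ≤ m) {η : ℝ} (hη : 0 < η) :
    ∃ T : Set Ω, MeasurableSet T ∧ T ⊆ S ∧ a ≤ μ.real T ∧
      ∫ e, miss W T e ∂(μ.prod μ) ≤ η := by
  set p := mass μ W with hpdef
  set κ := cd μ W with hκdef
  set γ := 2 * κ / p - m / 4 with hγdef
  have hγ : 0 < γ := by
    have h1 : γ = (8 * κ - m * p) / (4 * p) := by
      rw [hγdef]
      field_simp
      ring
    rw [h1]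
    exact div_pos (by linarith) (by linarith)
  set z := min η (4 * γ) with hzdef
  have hz : 0 < z := lt_min hη (by linarith)
  have hε : 0 < z * γ / 8 := by positivity
  obtain ⟨c, hc1, hc2⟩ := hc
  obtain ⟨f, hf1, hf2⟩ := exists_cdf_lt (μ := μ) (W := W) hε
  obtain ⟨f', hf1', hg', hf2'⟩ := exists_generic μ hc1 hc2 hW hf1 hε
  obtain ⟨T, R, mT, hTS, oR, cR, hTR, hμT, hwm⟩ := hreg f' hf1' hg'
  refine ⟨T, mT, hTS, hμT, ?_⟩
  by_contra hcon
  push Not at hcon
  set η' := ∫ e, miss W T e ∂(μ.prod μ) with hη'def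
  have hη' : 0 < η' := hη.trans hcon
  have hzη : z ≤ η' := (min_le_left _ _).trans hcon.le
  have hτ0 : 0 ≤ z / η' := by positivity
  have hτ1 : z / η' ≤ 1 := by rw [div_le_one hη']; exact hzη
  have hτη : z / η' * η' = z := div_mul_cancel₀ z hη'.ne'
  have hV := isGraphon_add_miss hW mT hτ0 hτ1
  have hmV := mass_add_miss (μ := μ) hW mT (z / η')
  rw [← hη'def, hτη, ← hpdef] at hmV
  have h1 := scale hW hmin hp hV hf1' hz.le (by rw [hmV])
  have h2 := cdf_add_miss (μ := μ) hW hf1'.measurable mT oR cR hTR hτ0 hwm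
  rw [← hη'def, hτη] at h2
  rw [← hpdef, ← hκdef] at h1
  have h3 : z ≤ 4 * γ := min_le_right _ _
  have h4 : 2 * κ * z / p = z * (γ + m / 4) := by
    rw [hγdef]
    field_simp
    ring
  rw [h4] at h1
  have h5 : z * z ≤ z * (4 * γ) := mul_le_mul_of_nonneg_left h3 hz.le
  have h6 : 0 < z * γ := by positivity
  nlinarith

end Pool.Agent.Helper85.GL
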