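import Pool.Agent.Helper85.GL.Deg

/-!
Project GL (helper85), MP_7bfbd3_co: minimum degree and cuts of a graphon of least crossing density.
-/

set_option linter.unusedSectionVars false

namespace Pool.Agent.Helper85.GL

open MeasureTheory Set Pool.Agent.Helper8.GC

variable {Ω : Type*} [MeasurableSpace Ω]

private theorem exists_left {f : Ω → ℝ × ℝ} (hf : IsDrawing f) :
    ∃ M : ℝ, ∀ x, -M ≤ (f x).1 ∧ (f x).1 ≤ M := by
  obtain ⟨M, hM⟩ := isBounded_iff_forall_norm_le.mp hf.bounded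
  refine ⟨M, fun x => ?_⟩
  have h1 := hM _ (mem_range_self x)
  have h2 : ‖(f x).1‖ ≤ ‖f x‖ := norm_fst_le _
  rw [Real.norm_eq_abs] at h2
  exact abs_le.1 (h2.trans h1)

private theorem no_atoms {μ : Measure Ω} [IsProbabilityMeasure μ] {f : Ω → ℝ × ℝ}
    (hf : Measurable f) (hg : Generic μ f) (t : ℝ) : μ {ω | (f ω).1 = t} = 0 := by
  have := hg.line_null hf t (α := 1) (β := 0) (Or.inl one_ne_zero)
  simpa using this

/-- Competitor for the minimum degree. -/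
theorem deg_step {μ : Measure Ω} [IsProbabilityMeasure μ]
    (hc : ∃ c : Ω → ℝ × ℝ, IsDrawing c ∧ Generic μ c)
    {W : Ω → Ω → ℝ} (hW : IsGraphon W)
    (hmin : ∀ W' : Ω → Ω → ℝ, IsGraphon W' → mass μ W' = mass μ W → cd μ W ≤ cd μ W')
    (hp : 0 < mass μ W) {Δ : ℝ} (hΔ : ∀ᵐ x ∂μ, ∫ y, W x y ∂μ ≤ Δ) {Z : Set Ω}
    (hZ : MeasurableSet Z) (hZ0 : 0 < μ.real Z)
    {θ : ℝ} (hθ0 : 0 ≤ θ) (hθ : ∀ x ∈ Z, ∫ y, W x y ∂μ ≤ θ) :
    cd μ W / (mass μ W * Δ) ≤ θ := by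
  by_contra hcon
  push Not at hcon
  set p := mass μ W with hpdef
  set κ := cd μ W with hκdef
  have hp1 : p ≤ 1 := mass_le_one hW
  have hκp : κ ≤ p ^ 2 / 8 := cd_le_sq hW
  have hpΔ : p ≤ Δ := mass_le_deg hW hΔ
  have hΔ0 : 0 < Δ := lt_of_lt_of_le hp hpΔ
  set r := 2 * (κ / (p * Δ)) with hrdef
  have hκp0 : 0 < κ / (p * Δ) := lt_of_le_of_lt hθ0 hcon
  have hr0 : 0 < r := by positivity
  have hr1 : r < 1 := by
    have h1 : κ / (p * Δ) ≤ 1 / 8 := by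
      rw [div_le_iff₀ (by positivity)]
      have h2 : p * p ≤ p * Δ := mul_le_mul_of_nonneg_left hpΔ hp.le
      nlinarith
    linarith
  set ξ := r - 2 * θ with hξdef
  have hξ : 0 < ξ := by linarith
  set δ := min (μ.real Z / 2) (min (ξ / 4) (Δ * ξ / 4)) with hδdef
  have hξΔ : 0 < Δ * ξ := by positivity
  have hδ0 : 0 < δ := lt_min (by linarith) (lt_min (by linarith) (by linarith))
  have hδZ : δ < μ.real Z := lt_of_le_of_lt (min_le_left _ _) (by linarith)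
  have hδξ : δ ≤ ξ / 4 := (min_le_right _ _).trans (min_le_left _ _)
  have hδξ' : δ ≤ Δ * ξ / 4 := (min_le_right _ _).trans (min_le_right _ _)
  obtain ⟨Z', mZ', hZ'Z, hμZ'⟩ := exists_subset hc hZ hδ0 hδZ
  have hε : 0 < δ * r * (Δ * ξ) / 16 := by positivity
  obtain ⟨c, hc1, hc2⟩ := hc
  obtain ⟨f₀, hf₀1, hf₀2⟩ := exists_cdf_lt (μ := μ) (W := W) hε
  obtain ⟨f, hf, hg, hfε⟩ := exists_generic μ hc1 hc2 hW hf₀1 hε
  have hφ : Measurable fun ω => (f ω).1 := measurable_fst.comp hf.measurable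
  obtain ⟨t, ht⟩ := exists_split hφ (no_atoms hf.measurable hg) MeasurableSet.univ
    (m := r) hr0 (by simpa using hr1)
  rw [univ_inter] at ht
  set L := {ω | (f ω).1 < t} with hLdef
  have mL : MeasurableSet L := measurableSet_lt hφ measurable_const
  obtain ⟨M, hM⟩ := exists_left hf
  have hMt : -M < t := by
    have hne : L.Nonempty := nonempty_of_real_pos (μ := μ) (by rw [ht]; exact hr0)
    obtain ⟨x, hx⟩ := hne
    exact lt_of_le_of_lt (hM x).1 hx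
  classical
  set f' : Ω → ℝ × ℝ := Z'.piecewise (fun _ => ((-M, 0) : ℝ × ℝ)) f with hf'def
  have hf'1 : ∀ x ∈ Z', f' x = (-M, 0) := fun x hx => piecewise_eq_of_mem _ _ _ hx
  have hf'2 : ∀ x, x ∉ Z' → f' x = f x := fun x hx => piecewise_eq_of_notMem _ _ _ hx
  have hf' : IsDrawing f' := by
    refine ⟨Measurable.piecewise mZ' measurable_const hf.measurable, ?_⟩
    refine (hf.bounded.union (Bornology.isBounded_singleton (x := ((-M, 0) : ℝ × ℝ)))).subset ?_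
    rintro _ ⟨x, rfl⟩
    by_cases hx : x ∈ Z'
    · exact Or.inr (hf'1 x hx)
    · exact Or.inl ⟨x, (hf'2 x hx).symm⟩
  set E : Set (Ω × Ω) := Z'ᶜ ×ˢ Z'ᶜ with hEdef
  have mE : MeasurableSet E := mZ'.compl.prod mZ'.compl
  set Y := L \ Z' with hYdef
  have mY : MeasurableSet Y := mL.diff mZ'
  have hXY : Disjoint Z' Y := disjoint_left.2 fun x h1 h2 => h2.2 h1
  have hV := isGraphon_glue hW mE (fun x y => ⟨fun h => ⟨h.2, h.1⟩, fun h => ⟨h.2, h.1⟩⟩)
    mZ' mY hXY (fun e he he' => he.1 he'.1)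
  have hmV := mass_glue (μ := μ) hW mE mZ' mY
  have hYr : μ.real Y ≤ r := by
    rw [← ht]
    exact measureReal_mono sdiff_subset
  have hYr' : r - δ ≤ μ.real Y := by
    have h1 : μ.real L ≤ μ.real Y + μ.real Z' := by
      refine (measureReal_mono (s₂ := Y ∪ Z') fun x hx => ?_).trans (measureReal_union_le _ _)
      by_cases h : x ∈ Z'
      · exact Or.inr h
      · exact Or.inl ⟨hx, h⟩
    rw [ht, hμZ'] at h1
    linarith
  have hdeg : wm μ W (Z' ×ˢ univ) ≤ θ * δ := by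
    rw [wm_prod_univ hW mZ']
    have h1 : ∫ x in Z', (∫ y, W x y ∂μ) ∂μ ≤ ∫ _ in Z', θ ∂μ :=
      setIntegral_mono_on (integrable_deg hW).integrableOn (integrable_const θ).integrableOn mZ'
        fun x hx => hθ x (hZ'Z hx)
    refine h1.trans ?_
    rw [setIntegral_const, smul_eq_mul, hμZ', mul_comm]
  have hwE : p - 2 * (θ * δ) ≤ wm μ W E := by
    have h1 : mass μ W ≤ wm μ W E + wm μ W (Z' ×ˢ univ) + wm μ W (univ ×ˢ Z') := by
      unfold wm mass
      have i1 := integrable_wm (μ := μ) hW mE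
      have i2 := integrable_wm (μ := μ) hW (mZ'.prod MeasurableSet.univ)
      have i3 := integrable_wm (μ := μ) hW (MeasurableSet.univ.prod mZ')
      have e1 := integral_add i1 i2
      have e2 := integral_add (i1.add i2) i3
      rw [← e1]
      refine le_of_le_of_eq ?_ e2
      refine integral_mono (Bdd.integrable hW.bdd) ((i1.add i2).add i3) fun e => ?_
      change W e.1 e.2 ≤ E.indicator (fun e : Ω × Ω => W e.1 e.2) e +
        (Z' ×ˢ univ).indicator (fun e : Ω × Ω => W e.1 e.2) e +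
        (univ ×ˢ Z').indicator (fun e : Ω × Ω => W e.1 e.2) e
      have n1 : 0 ≤ E.indicator (fun e : Ω × Ω => W e.1 e.2) e :=
        indicator_nonneg (fun _ _ => hW.nonneg _ _) e
      have n2 : 0 ≤ (Z' ×ˢ univ).indicator (fun e : Ω × Ω => W e.1 e.2) e :=
        indicator_nonneg (fun _ _ => hW.nonneg _ _) e
      have n3 : 0 ≤ (univ ×ˢ Z').indicator (fun e : Ω × Ω => W e.1 e.2) e :=
        indicator_nonneg (fun _ _ => hW.nonneg _ _) e
      by_cases h1 : e.1 ∈ Z'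
      · rw [indicator_of_mem (show e ∈ Z' ×ˢ univ from ⟨h1, mem_univ _⟩)]
        linarith
      · by_cases h2 : e.2 ∈ Z'
        · rw [indicator_of_mem (show e ∈ univ ×ˢ Z' from ⟨mem_univ _, h2⟩)]
          linarith
        · rw [indicator_of_mem (show e ∈ E from ⟨h1, h2⟩)]
          linarith
    rw [wm_swap hW univ Z'] at h1
    linarith
  set H : Set (Ω × Ω) := (L ×ˢ univ) ∪ (univ ×ˢ L) with hHdef
  have mH : MeasurableSet H := (mL.prod MeasurableSet.univ).union (MeasurableSet.univ.prod mL)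
  have hH2 : wm μ W H ≤ 2 * (Δ * r) := by
    rw [← ht]
    exact wm_cross_le hW hΔ mL
  have hcdf := cdf_glue (μ := μ) hW mE mZ' mY hf.measurable hf'.measurable
    (fun e he e' he' h => by
      have h' : Cross (f' e.1) (f' e.2) (f' e'.1) (f' e'.2) := h
      rw [hf'2 _ he.1, hf'2 _ he.2, hf'2 _ he'.1, hf'2 _ he'.2] at h'
      exact h') mH
    (fun e he e' he' h => by
      have h' : Cross (f' e.1) (f' e.2) (f' e'.1) (f' e'.2) := h
      rw [hf'1 _ he.1, hf'2 _ he.2.2, hf'2 _ he'.1, hf'2 _ he'.2] at h'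
      rcases cross_lt (t := t) hMt he.2.1 h' with h1 | h1
      · exact Or.inl ⟨h1, mem_univ _⟩
      · exact Or.inr ⟨mem_univ _, h1⟩)
  rw [hμZ'] at hcdf hmV
  have hs : 0 ≤ 2 * δ * (r - δ - θ) := by
    have : 0 ≤ r - δ - θ := by linarith
    positivity
  have hscale := scale hW hmin hp hV hf' hs (by
    rw [hmV, ← hpdef]
    have h1 : δ * (r - δ) ≤ δ * μ.real Y := mul_le_mul_of_nonneg_left hYr' hδ0.le
    nlinarith)
  rw [← hpdef, ← hκdef] at hscale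
  have hY0 : 0 ≤ μ.real Y := measureReal_nonneg
  have hH0 : 0 ≤ wm μ W H := wm_nonneg hW _
  have b1 : δ * μ.real Y ≤ δ * r := mul_le_mul_of_nonneg_left hYr hδ0.le
  have b2 : 4 * (δ * μ.real Y) * wm μ W H ≤ 4 * (δ * r) * (2 * (Δ * r)) :=
    mul_le_mul (by linarith) hH2 hH0 (by positivity)
  have b3 : (δ * μ.real Y) ^ 2 ≤ (δ * r) ^ 2 := pow_le_pow_left₀ (by positivity) b1 2
  have hκr : 2 * κ * (2 * δ * (r - δ - θ)) / p = Δ * r * (2 * δ * (r - δ - θ)) := by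
    rw [hrdef]
    field_simp
  rw [hκr] at hscale
  have hfin : Δ * r * (2 * δ * (r - δ - θ)) ≤
      2 * (δ * r * (Δ * ξ) / 16) + (4 * (δ * r) * (2 * (Δ * r)) + 4 * (δ * r) ^ 2) / 8 := by
    linarith
  have e1 : Δ * r * (2 * δ * (r - δ - θ)) -
      (4 * (δ * r) * (2 * (Δ * r)) + 4 * (δ * r) ^ 2) / 8 =
      δ * r * (Δ * ξ - 2 * (Δ * δ) - δ * r / 2) := by
    rw [hξdef]
    ring
  have hδr : δ * r ≤ δ * 1 := mul_le_mul_of_nonneg_left hr1.le hδ0.le
  have hΔδ : Δ * δ ≤ Δ * (ξ / 4) := mul_le_mul_of_nonneg_left hδξ hΔ0.le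
  have e2 : δ * r * (Δ * ξ / 4) ≤ δ * r * (Δ * ξ - 2 * (Δ * δ) - δ * r / 2) :=
    mul_le_mul_of_nonneg_left (by linarith) (by positivity)
  have e3 : 0 < δ * r * (Δ * ξ) := by positivity
  linarith

/-- The minimum degree of a minimiser is at least `cd W / (mass W * Δ)`, `Δ` the maximum degree. -/
theorem min_degree {μ : Measure Ω} [IsProbabilityMeasure μ]
    (hc : ∃ c : Ω → ℝ × ℝ, IsDrawing c ∧ Generic μ c)
    {W : Ω → Ω → ℝ} (hW : IsGraphon W)
    (hmin : ∀ W' : Ω → Ω → ℝ, IsGraphon W' → mass μ W' = mass μ W → cd μ W ≤ cd μ W')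
    (hp : 0 < mass μ W) {Δ : ℝ} (hΔ : ∀ᵐ x ∂μ, ∫ y, W x y ∂μ ≤ Δ) :
    ∀ᵐ x ∂μ, cd μ W / (mass μ W * Δ) ≤ ∫ y, W x y ∂μ := by
  rw [ae_iff]
  by_contra hne
  have hd0 : ∀ x, 0 ≤ ∫ y, W x y ∂μ := fun x => integral_nonneg fun y => hW.nonneg x y
  have hsub : {x | ¬ (cd μ W / (mass μ W * Δ) ≤ ∫ y, W x y ∂μ)} ⊆
      ⋃ n : ℕ, {x | ∫ y, W x y ∂μ ≤ cd μ W / (mass μ W * Δ) - 1 / ((n : ℝ) + 1)} := by
    intro x hx
    have hx' : ∫ y, W x y ∂μ < cd μ W / (mass μ W * Δ) := not_le.1 hx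
    obtain ⟨n, hn⟩ := exists_nat_one_div_lt (sub_pos.2 hx')
    refine mem_iUnion.2 ⟨n, ?_⟩
    change ∫ y, W x y ∂μ ≤ cd μ W / (mass μ W * Δ) - 1 / ((n : ℝ) + 1)
    linarith
  have hpos : ∃ n : ℕ, μ {x | ∫ y, W x y ∂μ ≤ cd μ W / (mass μ W * Δ) - 1 / ((n : ℝ) + 1)} ≠ 0 := by
    by_contra hall
    push Not at hall
    exact hne (measure_mono_null hsub (measure_iUnion_null hall))
  obtain ⟨n, hn⟩ := hpos
  set θ := cd μ W / (mass μ W * Δ) - 1 / ((n : ℝ) + 1) with hθdef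
  have mZ : MeasurableSet {x | ∫ y, W x y ∂μ ≤ θ} :=
    measurableSet_le (measurable_deg hW) measurable_const
  have hZ0 : 0 < μ.real {x | ∫ y, W x y ∂μ ≤ θ} :=
    ENNReal.toReal_pos hn (measure_ne_top μ _)
  obtain ⟨x, hx⟩ := nonempty_of_real_pos hZ0
  have hθ0 : 0 ≤ θ := (hd0 x).trans hx
  have h1 := deg_step hc hW hmin hp hΔ mZ hZ0 hθ0 fun x hx => hx
  have h2 : (0 : ℝ) < 1 / ((n : ℝ) + 1) := by positivity
  linarith

end Pool.Agent.Helper85.GL
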