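import Pool.Agent.Helper8.GC.Main

/-!
Project GL (helper85), MP_7bfbd3_co: in every set of positive measure there is a large subset whose
points span segments that are crossed by few edges.

Partition step: a vertical line and a second line cut the current set in four parts, and a segment
meets at most three of the four open quadrants.
-/

set_option linter.unusedSectionVars false

namespace Pool.Agent.Helper85.GL

open MeasureTheory Set Pool.Agent.Helper8.GC

variable {Ω : Type*} [MeasurableSpace Ω]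

/-- The pairs whose segment meets `R`. -/
def Hit (f : Ω → ℝ × ℝ) (R : Set (ℝ × ℝ)) : Set (Ω × Ω) :=
  {e | ∃ τ : ℝ, (0 ≤ τ ∧ τ ≤ 1) ∧ (1 - τ) • f e.1 + τ • f e.2 ∈ R}

/-- The mass of `W` on a set of pairs. -/
noncomputable def wm (μ : Measure Ω) (W : Ω → Ω → ℝ) (E : Set (Ω × Ω)) : ℝ :=
  ∫ e : Ω × Ω, E.indicator (fun e => W e.1 e.2) e ∂(μ.prod μ)

theorem measurableSet_hit {f : Ω → ℝ × ℝ} (hf : Measurable f) {R : Set (ℝ × ℝ)}
    (hR : IsOpen R) : MeasurableSet (Hit f R) := by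
  have h1 : IsOpen {p : (ℝ × ℝ) × (ℝ × ℝ) |
      ∃ τ : ℝ, (0 ≤ τ ∧ τ ≤ 1) ∧ (1 - τ) • p.1 + τ • p.2 ∈ R} := by
    have : {p : (ℝ × ℝ) × (ℝ × ℝ) |
        ∃ τ : ℝ, (0 ≤ τ ∧ τ ≤ 1) ∧ (1 - τ) • p.1 + τ • p.2 ∈ R} =
        ⋃ τ : ℝ, ⋃ _ : 0 ≤ τ ∧ τ ≤ 1,
          {p : (ℝ × ℝ) × (ℝ × ℝ) | (1 - τ) • p.1 + τ • p.2 ∈ R} := by
      ext p
      simp
    rw [this]
    refine isOpen_iUnion fun τ => isOpen_iUnion fun _ => ?_
    exact hR.preimage (by fun_prop)
  have h2 : Measurable fun e : Ω × Ω => (f e.1, f e.2) := by fun_prop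
  exact h2 h1.measurableSet

theorem hit_mono {f : Ω → ℝ × ℝ} {R R' : Set (ℝ × ℝ)} (h : R' ⊆ R) : Hit f R' ⊆ Hit f R := by
  rintro e ⟨τ, h1, h2⟩
  exact ⟨τ, h1, h h2⟩

/-- Two points of a convex region span a segment inside the region. -/
theorem hit_of_cross {f : Ω → ℝ × ℝ} {R : Set (ℝ × ℝ)} (hR : Convex ℝ R) {x y z w : Ω}
    (hx : f x ∈ R) (hy : f y ∈ R) (h : Cross (f x) (f y) (f z) (f w)) : (z, w) ∈ Hit f R := by
  obtain ⟨u, h1, h2⟩ := h
  have hu : u ∈ R := hR.segment_subset hx hy h1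
  rw [segment_eq_image] at h2
  obtain ⟨τ, hτ, rfl⟩ := h2
  exact ⟨τ, ⟨hτ.1, hτ.2⟩, hu⟩

theorem integrable_wm {μ : Measure Ω} [IsProbabilityMeasure μ] {W : Ω → Ω → ℝ}
    (hW : IsGraphon W) {E : Set (Ω × Ω)} (hE : MeasurableSet E) :
    Integrable (E.indicator (fun e : Ω × Ω => W e.1 e.2)) (μ.prod μ) := by
  refine Integrable.of_bound (hW.measurable.indicator hE).aestronglyMeasurable 1
    (Filter.Eventually.of_forall fun e => ?_)
  by_cases h : e ∈ E
  · rw [indicator_of_mem h, Real.norm_eq_abs, abs_of_nonneg (hW.nonneg _ _)]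
    exact hW.le_one _ _
  · rw [indicator_of_notMem h]
    simp

theorem wm_nonneg {μ : Measure Ω} {W : Ω → Ω → ℝ} (hW : IsGraphon W) (E : Set (Ω × Ω)) :
    0 ≤ wm μ W E :=
  integral_nonneg fun e => indicator_nonneg (fun _ _ => hW.nonneg _ _) e

theorem wm_le_mass {μ : Measure Ω} [IsProbabilityMeasure μ] {W : Ω → Ω → ℝ}
    (hW : IsGraphon W) {E : Set (Ω × Ω)} (hE : MeasurableSet E) : wm μ W E ≤ mass μ W := by
  unfold wm mass
  refine integral_mono (integrable_wm hW hE) ?_ fun e => ?_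
  · have := integrable_wm (μ := μ) hW MeasurableSet.univ
    rwa [indicator_univ] at this
  · exact indicator_le_self' (fun _ _ => hW.nonneg _ _) e

/-- An open half plane. -/
def half (α β γ : ℝ) : Set (ℝ × ℝ) := {u | α * u.1 + β * u.2 < γ}

theorem isOpen_half (α β γ : ℝ) : IsOpen (half α β γ) := by
  unfold half
  exact isOpen_lt (by fun_prop) continuous_const

theorem convex_half (α β γ : ℝ) : Convex ℝ (half α β γ) := by
  intro x hx y hy a b ha hb hab
  have hx' : α * x.1 + β * x.2 < γ := hx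
  have hy' : α * y.1 + β * y.2 < γ := hy
  change α * (a * x.1 + b * y.1) + β * (a * x.2 + b * y.2) < γ
  have h1 : α * (a * x.1 + b * y.1) + β * (a * x.2 + b * y.2) =
      a * (α * x.1 + β * x.2) + b * (α * y.1 + β * y.2) := by ring
  rw [h1]
  rcases eq_or_lt_of_le ha with h | h
  · have hb1 : b = 1 := by linarith
    rw [← h, hb1]
    linarith
  · have h2 : a * (α * x.1 + β * x.2) < a * γ := mul_lt_mul_of_pos_left hx' h
    have h3 : b * (α * y.1 + β * y.2) ≤ b * γ := mul_le_mul_of_nonneg_left hy'.le hb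
    have h4 : a * γ + b * γ = γ := by rw [← add_mul, hab, one_mul]
    linarith

/-- An affine function of the parameter of a segment. -/
private theorem lin_eq (a b : ℝ × ℝ) (α β τ : ℝ) :
    α * ((1 - τ) • a + τ • b).1 + β * ((1 - τ) • a + τ • b).2 =
      (α * a.1 + β * a.2) + τ * ((α * b.1 + β * b.2) - (α * a.1 + β * a.2)) := by
  simp only [Prod.fst_add, Prod.snd_add, Prod.smul_fst, Prod.smul_snd, smul_eq_mul]
  ring

private theorem no_four {G G' H H' c t τ₁ τ₂ τ₃ τ₄ : ℝ}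
    (h1 : G + τ₁ * G' < c) (h1' : H + τ₁ * H' < t)
    (h2 : G + τ₂ * G' < c) (h2' : t < H + τ₂ * H')
    (h3 : c < G + τ₃ * G') (h3' : H + τ₃ * H' < t)
    (h4 : c < G + τ₄ * G') (h4' : t < H + τ₄ * H') : False := by
  have e13 : 0 < (τ₃ - τ₁) * G' := by linarith
  have e14 : 0 < (τ₄ - τ₁) * G' := by linarith
  have e23 : 0 < (τ₃ - τ₂) * G' := by linarith
  have e24 : 0 < (τ₄ - τ₂) * G' := by linarith
  have f12 : 0 < (τ₂ - τ₁) * H' := by linarith
  have f14 : 0 < (τ₄ - τ₁) * H' := by linarith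
  have f32 : 0 < (τ₂ - τ₃) * H' := by linarith
  have f34 : 0 < (τ₄ - τ₃) * H' := by linarith
  rcases lt_trichotomy G' 0 with hG | hG | hG
  · have g13 : τ₃ < τ₁ := by
      by_contra h
      have := mul_nonpos_of_nonneg_of_nonpos (sub_nonneg.2 (not_lt.1 h)) hG.le
      linarith
    have g14 : τ₄ < τ₁ := by
      by_contra h
      have := mul_nonpos_of_nonneg_of_nonpos (sub_nonneg.2 (not_lt.1 h)) hG.le
      linarith
    have g23 : τ₃ < τ₂ := by
      by_contra h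
      have := mul_nonpos_of_nonneg_of_nonpos (sub_nonneg.2 (not_lt.1 h)) hG.le
      linarith
    rcases le_total H' 0 with hH | hH
    · have := mul_nonpos_of_nonneg_of_nonpos (sub_nonneg.2 g23.le) hH
      linarith
    · have := mul_nonpos_of_nonpos_of_nonneg (sub_nonpos.2 g14.le) hH
      linarith
  · rw [hG] at e13
    simp at e13
  · have g23 : τ₂ < τ₃ := by
      by_contra h
      have := mul_nonpos_of_nonpos_of_nonneg (sub_nonpos.2 (not_lt.1 h)) hG.le
      linarith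
    have g14 : τ₁ < τ₄ := by
      by_contra h
      have := mul_nonpos_of_nonpos_of_nonneg (sub_nonpos.2 (not_lt.1 h)) hG.le
      linarith
    rcases le_total H' 0 with hH | hH
    · have := mul_nonpos_of_nonneg_of_nonpos (sub_nonneg.2 g14.le) hH
      linarith
    · have := mul_nonpos_of_nonpos_of_nonneg (sub_nonpos.2 g23.le) hH
      linarith

/-- A segment meets at most three of the four open quadrants. -/
theorem hit_four {f : Ω → ℝ × ℝ} (c s t : ℝ) (e : Ω × Ω)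
    (h1 : e ∈ Hit f (half 1 0 c ∩ half (-s) 1 t))
    (h2 : e ∈ Hit f (half 1 0 c ∩ half s (-1) (-t)))
    (h3 : e ∈ Hit f (half (-1) 0 (-c) ∩ half (-s) 1 t))
    (h4 : e ∈ Hit f (half (-1) 0 (-c) ∩ half s (-1) (-t))) : False := by
  obtain ⟨τ₁, -, a1, b1⟩ := h1
  obtain ⟨τ₂, -, a2, b2⟩ := h2
  obtain ⟨τ₃, -, a3, b3⟩ := h3
  obtain ⟨τ₄, -, a4, b4⟩ := h4
  unfold half at a1 b1 a2 b2 a3 b3 a4 b4
  simp only [mem_ofPred_eq, lin_eq] at a1 b1 a2 b2 a3 b3 a4 b4
  refine no_four (G := (f e.1).1) (G' := (f e.2).1 - (f e.1).1)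
    (H := -s * (f e.1).1 + (f e.1).2)
    (H' := (-s * (f e.2).1 + (f e.2).2) - (-s * (f e.1).1 + (f e.1).2)) (c := c) (t := t)
    (τ₁ := τ₁) (τ₂ := τ₂) (τ₃ := τ₃) (τ₄ := τ₄) ?_ ?_ ?_ ?_ ?_ ?_ ?_ ?_ <;> linarith

private theorem int4 {α : Type*} [MeasurableSpace α] {ν : Measure α} {a b c d : α → ℝ}
    (ha : Integrable a ν) (hb : Integrable b ν) (hc : Integrable c ν) (hd : Integrable d ν) :
    ∫ x, (a x + b x + c x + d x) ∂ν =
      ∫ x, a x ∂ν + ∫ x, b x ∂ν + ∫ x, c x ∂ν + ∫ x, d x ∂ν := by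
  have h1 : ∫ x, (a x + b x) ∂ν = ∫ x, a x ∂ν + ∫ x, b x ∂ν := integral_add ha hb
  have h2 : ∫ x, ((a x + b x) + c x) ∂ν = ∫ x, (a x + b x) ∂ν + ∫ x, c x ∂ν :=
    integral_add (ha.add hb) hc
  have h3 : ∫ x, ((a x + b x + c x) + d x) ∂ν = ∫ x, (a x + b x + c x) ∂ν + ∫ x, d x ∂ν :=
    integral_add ((ha.add hb).add hc) hd
  rw [h3, h2, h1]

/-- The partition step. -/
theorem step {μ : Measure Ω} [IsProbabilityMeasure μ] {W : Ω → Ω → ℝ} (hW : IsGraphon W)
    {f : Ω → ℝ × ℝ} (hf : Measurable f) (hg : Generic μ f) {T : Set Ω} (hT : MeasurableSet T)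
    {R : Set (ℝ × ℝ)} (hR : IsOpen R) (hRc : Convex ℝ R) (hTR : ∀ x ∈ T, f x ∈ R)
    (h0 : 0 < μ.real T) :
    ∃ (T' : Set Ω) (R' : Set (ℝ × ℝ)), MeasurableSet T' ∧ T' ⊆ T ∧ IsOpen R' ∧ Convex ℝ R' ∧
      (∀ x ∈ T', f x ∈ R') ∧ μ.real T / 6 ≤ μ.real T' ∧
      wm μ W (Hit f R') ≤ 3 / 4 * wm μ W (Hit f R) := by
  have hline : ∀ α β γ : ℝ, α ≠ 0 ∨ β ≠ 0 → μ {ω | α * (f ω).1 + β * (f ω).2 = γ} = 0 :=
    fun α β γ h => hg.line_null hf γ h
  have hφ : Measurable fun ω => (f ω).1 := measurable_fst.comp hf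
  have hno : ∀ t, μ {ω | (f ω).1 = t} = 0 := by
    intro t
    have := hline 1 0 t (Or.inl one_ne_zero)
    simpa using this
  obtain ⟨c, hc⟩ := exists_split hφ hno hT (m := μ.real T / 2) (by linarith) (by linarith)
  have mX : MeasurableSet (T ∩ {ω | (f ω).1 < c}) := hT.inter (measurableSet_lt hφ measurable_const)
  have mZ : MeasurableSet (T ∩ {ω | c < (f ω).1}) := hT.inter (measurableSet_lt measurable_const hφ)
  have hZ : μ.real (T ∩ {ω | c < (f ω).1}) = μ.real T / 2 := by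
    have h1 : μ.real (T ∩ {ω | (f ω).1 < c}) + μ.real (T \ {ω | (f ω).1 < c}) = μ.real T :=
      measureReal_inter_add_sdiff (measurableSet_lt hφ measurable_const)
    have h2 : μ.real (T \ {ω | (f ω).1 < c}) = μ.real (T ∩ {ω | c < (f ω).1}) := by
      refine measureReal_congr ?_
      have : ∀ᵐ ω ∂μ, ω ∉ {ω | (f ω).1 = c} := measure_eq_zero_iff_ae_notMem.mp (hno c)
      filter_upwards [this] with ω hω
      have hne : (f ω).1 ≠ c := hω
      refine propext ?_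
      change (ω ∈ T ∧ ¬ ((f ω).1 < c)) ↔ (ω ∈ T ∧ c < (f ω).1)
      refine and_congr_right fun _ => ⟨fun h => ?_, fun h h' => by linarith⟩
      push Not at h
      exact lt_of_le_of_ne h (Ne.symm hne)
    rw [h2] at h1
    linarith
  obtain ⟨s, t, b1, b2, b3, b4⟩ := exists_bisector hf hline mX mZ c (fun ω hω => hω.2)
    (fun ω hω => hω.2) (by rw [hc]; linarith) (by rw [hZ]; linarith)
  rw [hc] at b1 b2
  rw [hZ] at b3 b4
  have mB : MeasurableSet {ω | (f ω).2 < s * (f ω).1 + t} :=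
    measurableSet_lt (measurable_snd.comp hf) ((hφ.const_mul s).add_const t)
  have mA : MeasurableSet {ω | s * (f ω).1 + t < (f ω).2} :=
    measurableSet_lt ((hφ.const_mul s).add_const t) (measurable_snd.comp hf)
  set Q₁ := half 1 0 c ∩ half (-s) 1 t with hQ₁
  set Q₂ := half 1 0 c ∩ half s (-1) (-t) with hQ₂
  set Q₃ := half (-1) 0 (-c) ∩ half (-s) 1 t with hQ₃
  set Q₄ := half (-1) 0 (-c) ∩ half s (-1) (-t) with hQ₄
  have o1 : IsOpen Q₁ := (isOpen_half _ _ _).inter (isOpen_half _ _ _)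
  have o2 : IsOpen Q₂ := (isOpen_half _ _ _).inter (isOpen_half _ _ _)
  have o3 : IsOpen Q₃ := (isOpen_half _ _ _).inter (isOpen_half _ _ _)
  have o4 : IsOpen Q₄ := (isOpen_half _ _ _).inter (isOpen_half _ _ _)
  have c1 : Convex ℝ Q₁ := (convex_half _ _ _).inter (convex_half _ _ _)
  have c2 : Convex ℝ Q₂ := (convex_half _ _ _).inter (convex_half _ _ _)
  have c3 : Convex ℝ Q₃ := (convex_half _ _ _).inter (convex_half _ _ _)
  have c4 : Convex ℝ Q₄ := (convex_half _ _ _).inter (convex_half _ _ _)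
  have hm := fun (Q : Set (ℝ × ℝ)) (oQ : IsOpen Q) =>
    integrable_wm (μ := μ) hW (measurableSet_hit hf (hR.inter oQ))
  have hsum : wm μ W (Hit f (R ∩ Q₁)) + wm μ W (Hit f (R ∩ Q₂)) + wm μ W (Hit f (R ∩ Q₃)) +
      wm μ W (Hit f (R ∩ Q₄)) ≤ 3 * wm μ W (Hit f R) := by
    unfold wm
    rw [← int4 (hm _ o1) (hm _ o2) (hm _ o3) (hm _ o4), ← integral_const_mul]
    refine integral_mono ((((hm _ o1).add (hm _ o2)).add (hm _ o3)).add (hm _ o4))
      ((integrable_wm hW (measurableSet_hit hf hR)).const_mul 3) fun e => ?_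
    have hw := hW.nonneg e.1 e.2
    have key : ∀ (Q : Set (ℝ × ℝ)), (Hit f (R ∩ Q)).indicator (fun e : Ω × Ω => W e.1 e.2) e ≤
        (Hit f R).indicator (fun e : Ω × Ω => W e.1 e.2) e :=
      fun Q => indicator_le_indicator_of_subset (hit_mono inter_subset_left)
        (fun e => hW.nonneg _ _) e
    have k1 := key Q₁
    have k2 := key Q₂
    have k3 := key Q₃
    have k4 := key Q₄
    have hn : 0 ≤ (Hit f R).indicator (fun e : Ω × Ω => W e.1 e.2) e :=
      indicator_nonneg (fun _ _ => hW.nonneg _ _) e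
    change (Hit f (R ∩ Q₁)).indicator (fun e : Ω × Ω => W e.1 e.2) e +
      (Hit f (R ∩ Q₂)).indicator (fun e : Ω × Ω => W e.1 e.2) e +
      (Hit f (R ∩ Q₃)).indicator (fun e : Ω × Ω => W e.1 e.2) e +
      (Hit f (R ∩ Q₄)).indicator (fun e : Ω × Ω => W e.1 e.2) e ≤
      3 * (Hit f R).indicator (fun e : Ω × Ω => W e.1 e.2) e
    by_cases e1 : e ∈ Hit f (R ∩ Q₁)
    · by_cases e2 : e ∈ Hit f (R ∩ Q₂)
      · by_cases e3 : e ∈ Hit f (R ∩ Q₃)
        · by_cases e4 : e ∈ Hit f (R ∩ Q₄)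
          · exact (hit_four c s t e (hit_mono inter_subset_right e1)
              (hit_mono inter_subset_right e2) (hit_mono inter_subset_right e3)
              (hit_mono inter_subset_right e4)).elim
          · rw [indicator_of_notMem e4]
            linarith
        · rw [indicator_of_notMem e3]
          linarith
      · rw [indicator_of_notMem e2]
        linarith
    · rw [indicator_of_notMem e1]
      linarith
  have hfin : ∀ (Q : Set (ℝ × ℝ)) (T' : Set Ω), IsOpen Q → Convex ℝ Q → MeasurableSet T' →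
      T' ⊆ T → (∀ x ∈ T', f x ∈ Q) → μ.real T / 6 ≤ μ.real T' →
      wm μ W (Hit f (R ∩ Q)) ≤ 3 / 4 * wm μ W (Hit f R) →
      ∃ (T' : Set Ω) (R' : Set (ℝ × ℝ)), MeasurableSet T' ∧ T' ⊆ T ∧ IsOpen R' ∧ Convex ℝ R' ∧
        (∀ x ∈ T', f x ∈ R') ∧ μ.real T / 6 ≤ μ.real T' ∧
        wm μ W (Hit f R') ≤ 3 / 4 * wm μ W (Hit f R) :=
    fun Q T' oQ cQ mT' hT' hQ hμ hw =>
      ⟨T', R ∩ Q, mT', hT', hR.inter oQ, hRc.inter cQ, fun x hx => ⟨hTR x (hT' hx), hQ x hx⟩,
        hμ, hw⟩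
  by_cases w1 : wm μ W (Hit f (R ∩ Q₁)) ≤ 3 / 4 * wm μ W (Hit f R)
  · refine hfin Q₁ _ o1 c1 (mX.inter mB) (fun x hx => hx.1.1) (fun x hx => ?_) (by linarith) w1
    have h1 : (f x).1 < c := hx.1.2
    have h2 : (f x).2 < s * (f x).1 + t := hx.2
    refine ⟨?_, ?_⟩
    · change 1 * (f x).1 + 0 * (f x).2 < c
      linarith
    · change -s * (f x).1 + 1 * (f x).2 < t
      linarith
  by_cases w2 : wm μ W (Hit f (R ∩ Q₂)) ≤ 3 / 4 * wm μ W (Hit f R)
  · refine hfin Q₂ _ o2 c2 (mX.inter mA) (fun x hx => hx.1.1) (fun x hx => ?_) (by linarith) w2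
    have h1 : (f x).1 < c := hx.1.2
    have h2 : s * (f x).1 + t < (f x).2 := hx.2
    refine ⟨?_, ?_⟩
    · change 1 * (f x).1 + 0 * (f x).2 < c
      linarith
    · change s * (f x).1 + -1 * (f x).2 < -t
      linarith
  by_cases w3 : wm μ W (Hit f (R ∩ Q₃)) ≤ 3 / 4 * wm μ W (Hit f R)
  · refine hfin Q₃ _ o3 c3 (mZ.inter mB) (fun x hx => hx.1.1) (fun x hx => ?_) (by linarith) w3
    have h1 : c < (f x).1 := hx.1.2
    have h2 : (f x).2 < s * (f x).1 + t := hx.2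
    refine ⟨?_, ?_⟩
    · change -1 * (f x).1 + 0 * (f x).2 < -c
      linarith
    · change -s * (f x).1 + 1 * (f x).2 < t
      linarith
  by_cases w4 : wm μ W (Hit f (R ∩ Q₄)) ≤ 3 / 4 * wm μ W (Hit f R)
  · refine hfin Q₄ _ o4 c4 (mZ.inter mA) (fun x hx => hx.1.1) (fun x hx => ?_) (by linarith) w4
    have h1 : c < (f x).1 := hx.1.2
    have h2 : s * (f x).1 + t < (f x).2 := hx.2
    refine ⟨?_, ?_⟩
    · change -1 * (f x).1 + 0 * (f x).2 < -c
      linarith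
    · change s * (f x).1 + -1 * (f x).2 < -t
      linarith
  exfalso
  push Not at w1 w2 w3 w4
  linarith

/-- In every set there is a large subset all of whose segments are crossed by few edges. -/
theorem exists_region {μ : Measure Ω} [IsProbabilityMeasure μ] {W : Ω → Ω → ℝ}
    (hW : IsGraphon W) {f : Ω → ℝ × ℝ} (hf : Measurable f) (hg : Generic μ f) {S : Set Ω}
    (hS : MeasurableSet S) (h0 : 0 < μ.real S) (j : ℕ) :
    ∃ (T : Set Ω) (R : Set (ℝ × ℝ)), MeasurableSet T ∧ T ⊆ S ∧ IsOpen R ∧ Convex ℝ R ∧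
      (∀ x ∈ T, f x ∈ R) ∧ μ.real S / 6 ^ j ≤ μ.real T ∧
      wm μ W (Hit f R) ≤ (3 / 4) ^ j * mass μ W := by
  induction j with
  | zero =>
    refine ⟨S, univ, hS, Subset.rfl, isOpen_univ, convex_univ, fun _ _ => mem_univ _, ?_, ?_⟩
    · simp
    · rw [pow_zero, one_mul]
      exact wm_le_mass hW (measurableSet_hit hf isOpen_univ)
  | succ j ih =>
    obtain ⟨T, R, mT, hTS, oR, cR, hTR, hμ, hw⟩ := ih
    have hT0 : 0 < μ.real T := lt_of_lt_of_le (by positivity) hμ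
    obtain ⟨T', R', mT', hT', oR', cR', hTR', hμ', hw'⟩ := step hW hf hg mT oR cR hTR hT0
    refine ⟨T', R', mT', hT'.trans hTS, oR', cR', hTR', ?_, ?_⟩
    · rw [pow_succ, ← div_div]
      linarith
    · rw [pow_succ]
      calc wm μ W (Hit f R') ≤ 3 / 4 * wm μ W (Hit f R) := hw'
        _ ≤ 3 / 4 * ((3 / 4) ^ j * mass μ W) := by
            exact mul_le_mul_of_nonneg_left hw (by norm_num)
        _ = (3 / 4) ^ j * (3 / 4) * mass μ W := by ring

end Pool.Agent.Helper85.GL
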